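import Mathlib

/-! The finite combinatorial core of the separation of `BRT²₂` from `WKL + BΣ⁰₂`
(MP_14f891_lc): graphs without large cliques on intervals of natural numbers which are robust
against partitions and against independent sets. -/

namespace BRT

/-- `H` is independent in the graph `E` (edges are pairs `x < y` with `E x y`) -/
def Indep (E : ℕ → ℕ → Prop) (H : Set ℕ) : Prop := ∀ x ∈ H, ∀ y ∈ H, x < y → ¬ E x y

/-- `S` is a clique of the graph `E` -/
def Clique (E : ℕ → ℕ → Prop) (S : Finset ℕ) : Prop := ∀ x ∈ S, ∀ y ∈ S, x < y → E x y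

open Classical in
/-- the game: the finite set `D` survives `k` moves, where a move is either a partition of `D` into
less than `min D` parts (answered by a part) or an independent set `H` (answered by a subset of `D`
contained in a gap of `H`) -/
def T (E : ℕ → ℕ → Prop) : ℕ → Finset ℕ → Prop
  | 0, D => D.Nonempty
  | k + 1, D => D.Nonempty ∧
      (∀ g : ℕ → ℕ, (∀ x ∈ D, ∀ y ∈ D, g x < y) → ∃ c, T E k (D.filter (fun x => g x = c))) ∧
      (∀ H : Set ℕ, Indep E H → ∃ D' ⊆ D, T E k D' ∧ ∀ x ∈ H, ∀ u ∈ D', ∀ v ∈ D', ¬ (u ≤ x ∧ x ≤ v))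

variable {E E₂ : ℕ → ℕ → Prop} {k : ℕ} {D D₂ : Finset ℕ}

lemma T.nonempty (h : T E k D) : D.Nonempty := by
  cases k with
  | zero => exact h
  | succ k => exact h.1

lemma T.mono (h : T E k D) (hD : D ⊆ D₂) : T E k D₂ := by
  classical
  induction k generalizing D D₂ with
  | zero => exact Finset.Nonempty.mono hD h
  | succ k ih =>
    refine ⟨Finset.Nonempty.mono hD h.1, ?_, ?_⟩
    · intro g hg
      obtain ⟨c, hc⟩ := h.2.1 g (fun x hx y hy => hg x (hD hx) y (hD hy))
      exact ⟨c, ih hc (Finset.filter_subset_filter _ hD)⟩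
    · intro H hH
      obtain ⟨D', h1, h2, h3⟩ := h.2.2 H hH
      exact ⟨D', h1.trans hD, h2, h3⟩

lemma T.mono_graph (h : T E k D) (hE : ∀ x y, E x y → E₂ x y) : T E₂ k D := by
  classical
  induction k generalizing D with
  | zero => exact h
  | succ k ih =>
    refine ⟨h.1, ?_, ?_⟩
    · intro g hg
      obtain ⟨c, hc⟩ := h.2.1 g hg
      exact ⟨c, ih hc⟩
    · intro H hH
      obtain ⟨D', h1, h2, h3⟩ := h.2.2 H (fun x hx y hy hxy hE' => hH x hx y hy hxy (hE _ _ hE'))
      exact ⟨D', h1, ih h2, h3⟩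

open Classical in
/-- every colouring with `p` colours has a colour class surviving `k` moves -/
def Tp (E : ℕ → ℕ → Prop) (p k : ℕ) (D : Finset ℕ) : Prop :=
  ∀ g : ℕ → ℕ, (∀ x ∈ D, g x < p) → ∃ c, T E k (D.filter (fun x => g x = c))

open Classical in
/-- the first half of the definition of `T E (k + 1) D` -/
def TP (E : ℕ → ℕ → Prop) (k : ℕ) (D : Finset ℕ) : Prop :=
  ∀ g : ℕ → ℕ, (∀ x ∈ D, ∀ y ∈ D, g x < y) → ∃ c, T E k (D.filter (fun x => g x = c))

lemma TP.mono (h : TP E k D) (hD : D ⊆ D₂) : TP E k D₂ := by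
  classical
  intro g hg
  obtain ⟨c, hc⟩ := h g (fun x hx y hy => hg x (hD hx) y (hD hy))
  exact ⟨c, hc.mono (Finset.filter_subset_filter _ hD)⟩

lemma TP.mono_graph (h : TP E k D) (hE : ∀ x y, E x y → E₂ x y) : TP E₂ k D := by
  intro g hg
  obtain ⟨c, hc⟩ := h g hg
  exact ⟨c, hc.mono_graph hE⟩

lemma TP.T (h : TP E k D) (hD : ∀ y ∈ D, 0 < y) : T E k D := by
  classical
  obtain ⟨c, hc⟩ := h (fun _ => 0) (fun _ _ y hy => hD y hy)
  exact hc.mono (Finset.filter_subset _ _)

/-! ### shift graphs -/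

/-- the shift graph: the vertex `Nat.pair i j` with `i < j` is joined to `Nat.pair j l` -/
def Q (s t : ℕ) : Prop :=
  (Nat.unpair s).1 < (Nat.unpair s).2 ∧ (Nat.unpair t).1 < (Nat.unpair t).2 ∧
    ((Nat.unpair s).2 = (Nat.unpair t).1 ∨ (Nat.unpair t).2 = (Nat.unpair s).1)

lemma Q.symm {s t : ℕ} (h : Q s t) : Q t s := ⟨h.2.1, h.1, h.2.2.symm⟩

lemma Q.no_triangle {s t u : ℕ} (h1 : Q s t) (h2 : Q t u) (h3 : Q s u) : False := by
  unfold Q at *
  omega

lemma Q.ne {s t : ℕ} (h : Q s t) : s ≠ t := by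
  rintro rfl
  unfold Q at h
  omega

/-- monochromatic edges -/
lemma exists_mono_edge (p : ℕ) : ∃ q, ∀ g : ℕ → ℕ, (∀ t < q, g t < p) →
    ∃ s t, s < t ∧ t < q ∧ Q s t ∧ g s = g t := by
  classical
  obtain ⟨q, hq⟩ : ∃ q, ∀ i ≤ 2 ^ p, ∀ j ≤ 2 ^ p, Nat.pair i j < q := by
    refine ⟨(((Finset.range (2 ^ p + 1)) ×ˢ (Finset.range (2 ^ p + 1))).sup
      (fun x => Nat.pair x.1 x.2)) + 1, fun i hi j hj => ?_⟩
    have : (i, j) ∈ (Finset.range (2 ^ p + 1)) ×ˢ (Finset.range (2 ^ p + 1)) := by
      rw [Finset.mem_product, Finset.mem_range, Finset.mem_range]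
      exact ⟨Nat.lt_succ_of_le hi, Nat.lt_succ_of_le hj⟩
    have h2 := Finset.le_sup (f := fun x : ℕ × ℕ => Nat.pair x.1 x.2) this
    exact Nat.lt_succ_of_le h2
  refine ⟨q, fun g hg => ?_⟩
  -- the sets of colours
  let C : ℕ → Finset ℕ := fun i =>
    ((Finset.range (2 ^ p + 1)).filter (fun j => i < j)).image (fun j => g (Nat.pair i j))
  have hC : ∀ i ∈ Finset.range (2 ^ p + 1), C i ∈ (Finset.range p).powerset := by
    intro i hi
    rw [Finset.mem_powerset]
    intro c hc
    obtain ⟨j, hj, rfl⟩ := Finset.mem_image.1 hc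
    rw [Finset.mem_filter, Finset.mem_range] at hj
    rw [Finset.mem_range] at hi ⊢
    exact hg _ (hq i (by omega) j (by omega))
  obtain ⟨i, hi, i', hi', hne, heq⟩ := Finset.exists_ne_map_eq_of_card_lt_of_maps_to
    (s := Finset.range (2 ^ p + 1)) (t := (Finset.range p).powerset) (f := C)
    (by rw [Finset.card_powerset, Finset.card_range, Finset.card_range]; omega) hC
  have key : ∀ i i', i < i' → i' ≤ 2 ^ p → C i = C i' →
      ∃ s t, s < t ∧ t < q ∧ Q s t ∧ g s = g t := by
    intro i i' hlt hle heq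
    have h1 : g (Nat.pair i i') ∈ C i := by
      apply Finset.mem_image.2
      refine ⟨i', ?_, rfl⟩
      rw [Finset.mem_filter, Finset.mem_range]
      exact ⟨by omega, hlt⟩
    rw [heq] at h1
    obtain ⟨j, hj, hj2⟩ := Finset.mem_image.1 h1
    rw [Finset.mem_filter, Finset.mem_range] at hj
    have hQ : Q (Nat.pair i i') (Nat.pair i' j) := by
      unfold Q
      rw [Nat.unpair_pair, Nat.unpair_pair]
      exact ⟨hlt, hj.2, Or.inl rfl⟩
    rcases lt_or_gt_of_ne hQ.ne with h | h
    · exact ⟨_, _, h, hq i' hle j (by omega), hQ, hj2.symm⟩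
    · exact ⟨_, _, h, hq i (by omega) i' hle, hQ.symm, hj2⟩
  rw [Finset.mem_range] at hi hi'
  rcases lt_or_gt_of_ne hne with h | h
  · exact key i i' h (by omega) heq
  · exact key i' i h (by omega) heq.symm

/-! ### the product colouring -/

lemma Tp.exists_color {p a : ℕ} (h : Tp E (p * a) k D) (g : ℕ → ℕ)
    (hg : ∀ x ∈ D, g x < p) : ∃ c, Tp E a k (D.filter (fun x => g x = c)) := by
  classical
  by_contra hcon
  push Not at hcon
  unfold Tp at hcon
  push Not at hcon
  choose g' hg' hT using hcon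
  -- a > 0
  rcases Nat.eq_zero_or_pos a with ha | ha
  · subst ha
    -- then all classes are empty, contradiction with h
    have hD : ∀ x ∈ D, False := by
      intro x hx
      have := hg' (g x) x (by rw [Finset.mem_filter]; exact ⟨hx, rfl⟩)
      omega
    obtain ⟨c, hc⟩ := h (fun _ => 0) (fun x hx => absurd (hD x hx) id)
    obtain ⟨x, hx⟩ := hc.nonempty
    exact hD x (Finset.mem_filter.1 hx).1
  obtain ⟨C, hC⟩ := h (fun x => g x * a + g' (g x) x) (by
    intro x hx
    have h1 := hg x hx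
    have h2 := hg' (g x) x (by rw [Finset.mem_filter]; exact ⟨hx, rfl⟩)
    calc g x * a + g' (g x) x < g x * a + a := by omega
      _ = (g x + 1) * a := by ring
      _ ≤ p * a := Nat.mul_le_mul_right a h1)
  apply hT (C / a) (C % a)
  refine hC.mono ?_
  intro x hx
  rw [Finset.mem_filter] at hx
  obtain ⟨hxD, hx⟩ := hx
  have h2 := hg' (g x) x (by rw [Finset.mem_filter]; exact ⟨hxD, rfl⟩)
  have h3 : C / a = g x := by
    rw [← hx, Nat.mul_comm, Nat.mul_add_div ha, Nat.div_eq_of_lt h2]; rfl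
  have h4 : C % a = g' (g x) x := by
    rw [← hx, Nat.mul_comm, Nat.mul_add_mod, Nat.mod_eq_of_lt h2]
  rw [Finset.mem_filter, Finset.mem_filter]
  exact ⟨⟨hxD, h3.symm⟩, by rw [h3, h4]⟩

/-- the statement of the main lemma for `k` -/
def Good (k : ℕ) : Prop := ∀ p a : ℕ, 0 < a → ∃ b, ∃ E : ℕ → ℕ → Prop, a ≤ b ∧
  (∀ x y, E x y → a ≤ x ∧ x < y ∧ y < b) ∧
  (∀ S : Finset ℕ, Clique E S → S.card ≤ 2 ^ k) ∧ Tp E p k (Finset.Ico a b)

open Classical in
/-- blocks: some colour class satisfies `TP` -/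
lemma Good.block (h : Good k) (p : ℕ) : ∀ (r a : ℕ), 0 < a → ∃ b, ∃ E : ℕ → ℕ → Prop, a ≤ b ∧
    (∀ x y, E x y → a ≤ x ∧ x < y ∧ y < b) ∧
    (∀ S : Finset ℕ, Clique E S → S.card ≤ 2 ^ k) ∧
    ∀ g : ℕ → ℕ, (∀ x ∈ Finset.Ico a b, g x < p) →
      (∃ c, TP E k ((Finset.Ico a b).filter (fun x => g x = c))) ∨
        r ≤ ((Finset.Ico a b).image g).card := by
  intro r
  induction r with
  | zero =>
    intro a ha
    refine ⟨a, fun _ _ => False, le_rfl, fun _ _ h => h.elim, ?_, fun g _ => Or.inr (Nat.zero_le _)⟩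
    intro S hS
    have h1 : S.card ≤ 1 := by
      rw [Finset.card_le_one]
      intro x hx y hy
      rcases lt_trichotomy x y with h1 | h1 | h1
      · exact (hS x hx y hy h1).elim
      · exact h1
      · exact (hS y hy x hx h1).elim
    exact h1.trans (Nat.one_le_two_pow)
  | succ r ih =>
    intro a ha
    obtain ⟨b, E, hab, hE, hcl, hg⟩ := ih a ha
    obtain ⟨b', E', hbb', hE', hcl', hTp⟩ := h (p * b) b (by omega)
    refine ⟨b', fun x y => E x y ∨ E' x y, hab.trans hbb', ?_, ?_, ?_⟩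
    · rintro x y (h1 | h1)
      · have := hE x y h1; omega
      · have := hE' x y h1; omega
    · -- cliques
      intro S hS
      by_cases hS1 : S.card ≤ 1
      · exact hS1.trans (Nat.one_le_two_pow)
      rw [not_le] at hS1
      -- all edges of S are in the same graph
      by_cases hall : ∀ x ∈ S, x < b
      · apply hcl S
        intro x hx y hy hxy
        rcases hS x hx y hy hxy with h1 | h1
        · exact h1
        · have := hE' x y h1
          have := hall x hx
          omega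
      · push Not at hall
        obtain ⟨z, hz, hzb⟩ := hall
        have hall' : ∀ x ∈ S, b ≤ x := by
          intro x hx
          by_contra hxb
          rw [not_le] at hxb
          rcases hS x hx z hz (by omega) with h1 | h1
          · have := hE x z h1; omega
          · have := hE' x z h1; omega
        apply hcl' S
        intro x hx y hy hxy
        rcases hS x hx y hy hxy with h1 | h1
        · have := hE x y h1
          have := hall' x hx
          omega
        · exact h1
    · intro g hgp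
      have hsub1 : Finset.Ico a b ⊆ Finset.Ico a b' := Finset.Ico_subset_Ico_right hbb'
      have hsub2 : Finset.Ico b b' ⊆ Finset.Ico a b' := Finset.Ico_subset_Ico_left hab
      rcases hg g (fun x hx => hgp x (hsub1 hx)) with ⟨c, hc⟩ | hcard
      · left
        exact ⟨c, (hc.mono (Finset.filter_subset_filter _ hsub1)).mono_graph
          (fun x y h => Or.inl h)⟩
      · obtain ⟨c, hc⟩ := hTp.exists_color g (fun x hx => hgp x (hsub2 hx))
        by_cases hcV : c ∈ (Finset.Ico a b).image g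
        · left
          obtain ⟨x0, hx0, hx0c⟩ := Finset.mem_image.1 hcV
          refine ⟨c, ?_⟩
          intro g' hg'
          have hx0' : x0 ∈ (Finset.Ico a b').filter (fun x => g x = c) :=
            Finset.mem_filter.2 ⟨hsub1 hx0, hx0c⟩
          obtain ⟨c', hc'⟩ := hc g' (by
            intro x hx
            have hx' : x ∈ (Finset.Ico a b').filter (fun x => g x = c) :=
              Finset.filter_subset_filter _ hsub2 hx
            have h1 := hg' x hx' x0 hx0'
            have h2 := (Finset.mem_Ico.1 hx0).2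
            omega)
          refine ⟨c', (hc'.mono_graph (fun x y h => Or.inr h)).mono ?_⟩
          exact Finset.filter_subset_filter _ (Finset.filter_subset_filter _ hsub2)
        · right
          have hne : ((Finset.Ico b b').filter (fun x => g x = c)).Nonempty := by
            rcases Nat.eq_zero_or_pos b with hb | hb
            · omega
            obtain ⟨c', hc'⟩ := hc (fun _ => 0) (fun _ _ => hb)
            exact hc'.nonempty.mono (Finset.filter_subset _ _)
          obtain ⟨y, hy⟩ := hne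
          rw [Finset.mem_filter] at hy
          have h1 : insert c ((Finset.Ico a b).image g) ⊆ (Finset.Ico a b').image g := by
            intro d hd
            rw [Finset.mem_insert] at hd
            rcases hd with rfl | hd
            · exact Finset.mem_image.2 ⟨y, hsub2 hy.1, hy.2⟩
            · exact Finset.image_subset_image hsub1 hd
          calc r + 1 ≤ ((Finset.Ico a b).image g).card + 1 := by omega
            _ = (insert c ((Finset.Ico a b).image g)).card := by
                rw [Finset.card_insert_of_notMem hcV]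
            _ ≤ _ := Finset.card_le_card h1

/-- the number of the block of `x` -/
def idx (v : ℕ → ℕ) (q x : ℕ) : ℕ := ((Finset.range q).filter (fun t => v (t + 1) ≤ x)).card

lemma idx_eq {v : ℕ → ℕ} (hv : Monotone v) {q x t : ℕ} (ht : t < q) (h1 : v t ≤ x)
    (h2 : x < v (t + 1)) : idx v q x = t := by
  unfold idx
  have : (Finset.range q).filter (fun t => v (t + 1) ≤ x) = Finset.range t := by
    ext t'
    rw [Finset.mem_filter, Finset.mem_range, Finset.mem_range]
    constructor
    · rintro ⟨h3, h4⟩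
      by_contra h5
      have : v (t + 1) ≤ v (t' + 1) := hv (by omega)
      omega
    · intro h3
      have : v (t' + 1) ≤ v t := hv (by omega)
      exact ⟨by omega, by omega⟩
  rw [this, Finset.card_range]

theorem Good.succ (h : Good k) : Good (k + 1) := by
  classical
  intro p a ha
  obtain ⟨q, hq⟩ := exists_mono_edge p
  -- the blocks
  have hblk : ∀ a, ∃ b, ∃ E : ℕ → ℕ → Prop, 0 < a → (a ≤ b ∧
      (∀ x y, E x y → a ≤ x ∧ x < y ∧ y < b) ∧
      (∀ S : Finset ℕ, Clique E S → S.card ≤ 2 ^ k) ∧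
      ∀ g : ℕ → ℕ, (∀ x ∈ Finset.Ico a b, g x < p) →
        ∃ c, TP E k ((Finset.Ico a b).filter (fun x => g x = c))) := by
    intro a
    by_cases ha : 0 < a
    · obtain ⟨b, E, h1, h2, h3, h4⟩ := h.block p (p + 1) a ha
      refine ⟨b, E, fun _ => ⟨h1, h2, h3, fun g hg => ?_⟩⟩
      rcases h4 g hg with h5 | h5
      · exact h5
      · exfalso
        have h6 : (Finset.Ico a b).image g ⊆ Finset.range p := by
          intro c hc
          obtain ⟨x, hx, rfl⟩ := Finset.mem_image.1 hc
          rw [Finset.mem_range]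
          exact hg x hx
        have h7 := Finset.card_le_card h6
        rw [Finset.card_range] at h7
        omega
    · exact ⟨0, fun _ _ => False, fun h => absurd h ha⟩
  choose β F hF using hblk
  let v : ℕ → ℕ := fun t => Nat.rec a (fun _ x => β x) t
  have hv0 : v 0 = a := rfl
  have hvs : ∀ t, v (t + 1) = β (v t) := fun t => rfl
  have hvpos : ∀ t, 0 < v t := by
    intro t
    induction t with
    | zero => exact ha
    | succ t ih => rw [hvs]; exact lt_of_lt_of_le ih (hF _ ih).1
  have hvm : Monotone v := monotone_nat_of_le_succ (fun t => (hF _ (hvpos t)).1)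
  have hR : ∀ t x y, F (v t) x y → v t ≤ x ∧ x < y ∧ y < v (t + 1) :=
    fun t => (hF _ (hvpos t)).2.1
  have hCl : ∀ t (S : Finset ℕ), Clique (F (v t)) S → S.card ≤ 2 ^ k :=
    fun t => (hF _ (hvpos t)).2.2.1
  have hTP : ∀ t (g : ℕ → ℕ), (∀ x ∈ Finset.Ico (v t) (v (t + 1)), g x < p) →
      ∃ c, TP (F (v t)) k ((Finset.Ico (v t) (v (t + 1))).filter (fun x => g x = c)) :=
    fun t => (hF _ (hvpos t)).2.2.2
  let E : ℕ → ℕ → Prop := fun x y => (∃ t < q, F (v t) x y) ∨
    (∃ s t, s < t ∧ t < q ∧ Q s t ∧ v s ≤ x ∧ x < v (s + 1) ∧ v t ≤ y ∧ y < v (t + 1))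
  have hEF : ∀ t < q, ∀ x y, F (v t) x y → E x y := fun t ht x y hxy => Or.inl ⟨t, ht, hxy⟩
  -- edges and indices
  have hEi : ∀ x y, E x y → (idx v q x = idx v q y ∧ F (v (idx v q x)) x y) ∨
      (idx v q x ≠ idx v q y ∧ Q (idx v q x) (idx v q y)) := by
    rintro x y (⟨t, ht, hxy⟩ | ⟨s, t, hst, ht, hQ, h1, h2, h3, h4⟩)
    · left
      obtain ⟨h1, h2, h3⟩ := hR t x y hxy
      rw [idx_eq hvm ht h1 (by omega), idx_eq hvm ht (by omega) h3]
      exact ⟨rfl, hxy⟩
    · right
      rw [idx_eq hvm (by omega) h1 h2, idx_eq hvm ht h3 h4]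
      exact ⟨hst.ne, hQ⟩
  refine ⟨v q, E, hvm (Nat.zero_le q), ?_, ?_, ?_⟩
  · rintro x y (⟨t, ht, hxy⟩ | ⟨s, t, hst, ht, hQ, h1, h2, h3, h4⟩)
    · obtain ⟨h1, h2, h3⟩ := hR t x y hxy
      have e1 : v 0 ≤ v t := hvm (Nat.zero_le t)
      have e2 : v (t + 1) ≤ v q := hvm ht
      rw [hv0] at e1
      omega
    · have e1 : v 0 ≤ v s := hvm (Nat.zero_le s)
      have e2 : v (t + 1) ≤ v q := hvm ht
      have e3 : v (s + 1) ≤ v t := hvm hst
      rw [hv0] at e1
      omega
  · -- cliques
    intro S hS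
    have h1 : (S.image (idx v q)).card ≤ 2 := by
      by_contra h2
      rw [not_le, Finset.two_lt_card] at h2
      obtain ⟨i, hi, j, hj, l, hl, hij, hil, hjl⟩ := h2
      obtain ⟨x, hx, rfl⟩ := Finset.mem_image.1 hi
      obtain ⟨y, hy, rfl⟩ := Finset.mem_image.1 hj
      obtain ⟨z, hz, rfl⟩ := Finset.mem_image.1 hl
      have key : ∀ x ∈ S, ∀ y ∈ S, idx v q x ≠ idx v q y → Q (idx v q x) (idx v q y) := by
        intro x hx y hy hne
        rcases lt_trichotomy x y with h3 | h3 | h3
        · rcases hEi x y (hS x hx y hy h3) with h4 | h4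
          · exact absurd h4.1 hne
          · exact h4.2
        · exact absurd (by rw [h3]) hne
        · rcases hEi y x (hS y hy x hx h3) with h4 | h4
          · exact absurd h4.1.symm hne
          · exact h4.2.symm
      exact Q.no_triangle (key x hx y hy hij) (key y hy z hz hjl) (key x hx z hz hil)
    have h2 := Finset.card_le_mul_card_image (f := idx v q) S (2 ^ k) (by
      intro t _
      apply hCl t
      intro x hx y hy hxy
      rw [Finset.mem_filter] at hx hy
      rcases hEi x y (hS x hx.1 y hy.1 hxy) with h4 | h4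
      · rw [hx.2] at h4; exact h4.2
      · exact absurd (hx.2.trans hy.2.symm) h4.1)
    calc S.card ≤ 2 ^ k * (S.image (idx v q)).card := h2
      _ ≤ 2 ^ k * 2 := Nat.mul_le_mul_left _ h1
      _ = 2 ^ (k + 1) := by ring
  · -- colourings
    intro g hg
    have hsub : ∀ t < q, Finset.Ico (v t) (v (t + 1)) ⊆ Finset.Ico a (v q) := by
      intro t ht
      have e1 : v 0 ≤ v t := hvm (Nat.zero_le t)
      have e2 : v (t + 1) ≤ v q := hvm ht
      rw [hv0] at e1
      exact Finset.Ico_subset_Ico e1 e2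
    have hc : ∀ t, ∃ c, t < q →
        TP (F (v t)) k ((Finset.Ico (v t) (v (t + 1))).filter (fun x => g x = c)) := by
      intro t
      by_cases ht : t < q
      · obtain ⟨c, hc⟩ := hTP t g (fun x hx => hg x (hsub t ht hx))
        exact ⟨c, fun _ => hc⟩
      · exact ⟨0, fun h => absurd h ht⟩
    choose c hc using hc
    have hpos : ∀ t c, ∀ y ∈ (Finset.Ico (v t) (v (t + 1))).filter (fun x => g x = c), 0 < y := by
      intro t c y hy
      rw [Finset.mem_filter, Finset.mem_Ico] at hy
      have := hvpos t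
      omega
    obtain ⟨s, t, hst, ht, hQ, hcst⟩ := hq c (by
      intro t ht
      obtain ⟨x, hx⟩ := ((hc t ht).T (hpos t (c t))).nonempty
      rw [Finset.mem_filter] at hx
      rw [← hx.2]
      exact hg x (hsub t ht hx.1))
    have hs : s < q := by omega
    have hTs := ((hc s hs).T (hpos s (c s))).mono_graph (hEF s hs)
    have hTt := ((hc t ht).T (hpos t (c t))).mono_graph (hEF t ht)
    rw [← hcst] at hTt
    have hsubs : (Finset.Ico (v s) (v (s + 1))).filter (fun x => g x = c s) ⊆
        (Finset.Ico a (v q)).filter (fun x => g x = c s) :=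
      Finset.filter_subset_filter _ (hsub s hs)
    have hsubt : (Finset.Ico (v t) (v (t + 1))).filter (fun x => g x = c s) ⊆
        (Finset.Ico a (v q)).filter (fun x => g x = c s) :=
      Finset.filter_subset_filter _ (hsub t ht)
    refine ⟨c s, hTs.nonempty.mono hsubs, ((hc s hs).mono_graph (hEF s hs)).mono hsubs, ?_⟩
    intro (H : Set ℕ) hH
    rcases Classical.em (∃ x : ℕ, x ∈ H ∧ v s ≤ x ∧ x < v (s + 1)) with h1 | h1
    · rcases Classical.em (∃ y : ℕ, y ∈ H ∧ v t ≤ y ∧ y < v (t + 1)) with h2 | h2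
      · exfalso
        obtain ⟨x, hxH, hx1, hx2⟩ := h1
        obtain ⟨y, hyH, hy1, hy2⟩ := h2
        have e3 : v (s + 1) ≤ v t := hvm hst
        exact hH x hxH y hyH (by omega) (Or.inr ⟨s, t, hst, ht, hQ, hx1, hx2, hy1, hy2⟩)
      · refine ⟨_, hsubt, hTt, ?_⟩
        rintro x hx u hu w hw ⟨h3, h4⟩
        rw [Finset.mem_filter, Finset.mem_Ico] at hu hw
        exact h2 ⟨x, hx, by omega, by omega⟩
    · refine ⟨_, hsubs, hTs, ?_⟩
      rintro x hx u hu w hw ⟨h3, h4⟩
      rw [Finset.mem_filter, Finset.mem_Ico] at hu hw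
      exact h1 ⟨x, hx, by omega, by omega⟩

theorem good_zero : Good 0 := by
  classical
  intro p a ha
  refine ⟨a + 1, fun _ _ => False, by omega, fun _ _ h => h.elim, ?_, ?_⟩
  · intro S hS
    rw [pow_zero, Finset.card_le_one]
    intro x hx y hy
    rcases lt_trichotomy x y with h1 | h1 | h1
    · exact (hS x hx y hy h1).elim
    · exact h1
    · exact (hS y hy x hx h1).elim
  · intro g _
    refine ⟨g a, a, ?_⟩
    rw [Finset.mem_filter, Finset.mem_Ico]
    exact ⟨⟨le_rfl, by omega⟩, rfl⟩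

theorem good (k : ℕ) : Good k := by
  induction k with
  | zero => exact good_zero
  | succ k ih => exact ih.succ

/-- the graphs -/
theorem exists_graph (k a : ℕ) (ha : 0 < a) : ∃ b, ∃ E : ℕ → ℕ → Prop,
    (∀ x y, E x y → a ≤ x ∧ x < y ∧ y < b) ∧
    (∀ S : Finset ℕ, Clique E S → S.card ≤ 2 ^ k) ∧ T E k (Finset.Ico a b) := by
  classical
  obtain ⟨b, E, _, h2, h3, h4⟩ := good k 1 a ha
  obtain ⟨c, hc⟩ := h4 (fun _ => 0) (fun _ _ => Nat.one_pos)
  exact ⟨b, E, h2, h3, hc.mono (Finset.filter_subset _ _)⟩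

/-! ### the moves -/

/-- partitions -/
lemma T.partition (h : T E (k + 1) D) (g : ℕ → ℕ) (hg : ∀ x ∈ D, ∀ y ∈ D, g x < y) :
    ∃ c, ∃ D' ⊆ D, T E k D' ∧ ∀ x ∈ D', g x = c := by
  classical
  obtain ⟨c, hc⟩ := h.2.1 g hg
  exact ⟨c, _, Finset.filter_subset _ _, hc, fun x hx => (Finset.mem_filter.1 hx).2⟩

/-- arbitrary sets -/
lemma T.gap (h : T E (k + 2) D) (hD : ∀ y ∈ D, 1 < y) (H : Set ℕ) :
    ∃ D' ⊆ D, T E k D' ∧ ((∀ x ∈ H, ∀ u ∈ D', ∀ v ∈ D', ¬ (u ≤ x ∧ x ≤ v)) ∨
      (∃ x ∈ H, ∃ y ∈ H, x < y ∧ E x y ∧ ∀ u ∈ D', y ≤ u)) := by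
  classical
  by_cases hH : Indep E H
  · obtain ⟨D1, h1, h2, h3⟩ := h.2.2 H hH
    obtain ⟨c, D2, h4, h5, _⟩ := h2.partition (fun _ => 0) (fun x _ y hy => by
      have := hD y (h1 hy); omega)
    exact ⟨D2, h4.trans h1, h5, Or.inl (fun x hx u hu v hv => h3 x hx u (h4 hu) v (h4 hv))⟩
  · have hex : ∃ y, y ∈ H ∧ ∃ x ∈ H, x < y ∧ E x y := by
      unfold Indep at hH
      push Not at hH
      obtain ⟨x, hx, y, hy, hxy, hE⟩ := hH
      exact ⟨y, hy, x, hx, hxy, hE⟩
    obtain ⟨hyH, x, hxH, hxy, hE⟩ := Nat.find_spec hex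
    set t := Nat.find hex with ht
    obtain ⟨D1, h1, h2, h3⟩ := h.2.2 {z | z ∈ H ∧ z < t} (by
      intro x' hx' y' hy' hxy' hE'
      exact Nat.find_min hex hy'.2 ⟨hy'.1, x', hx'.1, hxy', hE'⟩)
    obtain ⟨c, D2, h4, h5, h6⟩ := h2.partition (fun z => if z < t then 0 else 1) (by
      intro z _ y hy
      have := hD y (h1 hy)
      split_ifs <;> omega)
    refine ⟨D2, h4.trans h1, h5, ?_⟩
    rcases Nat.eq_zero_or_pos c with hc | hc
    · left
      have hlt : ∀ z ∈ D2, z < t := by
        intro z hz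
        have := h6 z hz
        by_contra h7
        rw [if_neg h7] at this
        omega
      intro z hz u hu v hv huv
      exact h3 z ⟨hz, lt_of_le_of_lt huv.2 (hlt v hv)⟩ u (h4 hu) v (h4 hv) huv
    · right
      refine ⟨x, hxH, t, hyH, hxy, hE, ?_⟩
      intro u hu
      have := h6 u hu
      by_contra h7
      rw [if_pos (by omega)] at this
      omega

lemma not_T_singleton (m : ℕ) : ¬ T E (k + 1) {m} := by
  intro h
  obtain ⟨D', h1, h2, h3⟩ := h.2.2 {m} (by
    intro x hx y hy hxy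
    rw [Set.mem_singleton_iff] at hx hy
    omega)
  obtain ⟨u, hu⟩ := h2.nonempty
  have h4 := h1 hu
  rw [Finset.mem_singleton] at h4
  subst h4
  exact h3 u rfl u hu u hu ⟨le_rfl, le_rfl⟩

/-- removing the minimum -/
lemma T.erase_min (h : T E (k + 2) D) (hD : ∀ y ∈ D, 1 < y) :
    ∃ D' ⊆ D, T E (k + 1) D' ∧ ∃ m ∈ D, ∀ u ∈ D', m < u := by
  classical
  obtain ⟨m, hm, hmin⟩ := D.exists_minimal h.nonempty
  have hmin' : ∀ y ∈ D, m ≤ y := by
    intro y hy
    by_contra h1
    exact absurd (hmin hy (by omega)) (by omega)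
  obtain ⟨c, D2, h4, h5, h6⟩ := h.partition (fun z => if z = m then 0 else 1) (by
      intro z _ y hy
      have := hD y hy
      split_ifs <;> omega)
  refine ⟨D2, h4, h5, m, hm, ?_⟩
  intro u hu
  have h7 := hmin' u (h4 hu)
  rcases Nat.lt_or_ge m u with h8 | h8
  · exact h8
  · exfalso
    have h9 : u = m := by omega
    have h10 := h6 u hu
    rw [if_pos h9] at h10
    have h11 : D2 ⊆ {m} := by
      intro z hz
      rw [Finset.mem_singleton]
      by_contra h12
      have := h6 z hz
      rw [if_neg h12] at this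
      omega
    exact not_T_singleton m (h5.mono h11)

end BRT
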