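import Mathlib

/-! Second order arithmetic: bounded formulas, the axioms of `RCA₀`, `WKL`, `BΣ⁰₂` and
the bounded version `BRT²₂` of Ramsey's theorem for pairs, for a structure `(M, 𝒳)` whose first
order part is an ordered semiring `M` and whose second order part is a family `𝒳` of subsets
of `M`. -/

namespace BRT

/-- Number terms of the language of second order arithmetic (the variables are numbered). -/
inductive Tm
  | var (i : ℕ)
  | zero
  | one
  | add (s t : Tm)
  | mul (s t : Tm)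

/-- Bounded (that is, `Σ⁰₀`) formulas of the language of second order arithmetic; in
`all t φ`, which stands for `∀ x < t, φ`, the new variable `x` gets the number `0` in `φ`, and
the old variables are renumbered by `i ↦ i + 1`; `mem t j` stands for `t ∈ X_j`. -/
inductive Fm
  | eq (s t : Tm)
  | lt (s t : Tm)
  | mem (t : Tm) (j : ℕ)
  | neg (φ : Fm)
  | and (φ ψ : Fm)
  | all (t : Tm) (φ : Fm)

/-- The assignment which gives the variable `0` the value `x`. -/
def cons {M : Type*} (x : M) (e : ℕ → M) : ℕ → M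
  | 0 => x
  | i + 1 => e i

section defs

variable {M : Type*} [CommSemiring M] [LinearOrder M]

/-- The value of a term under the assignment `e` of the number variables. -/
def Tm.val (e : ℕ → M) : Tm → M
  | var i => e i
  | zero => 0
  | one => 1
  | add s t => s.val e + t.val e
  | mul s t => s.val e * t.val e

/-- Truth of a bounded formula under the assignment `s` of the set variables and the
assignment `e` of the number variables. -/
def Fm.Sat (s : ℕ → Set M) : Fm → (ℕ → M) → Prop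
  | eq a b, e => a.val e = b.val e
  | lt a b, e => a.val e < b.val e
  | mem a j, e => a.val e ∈ s j
  | neg φ, e => ¬ φ.Sat s e
  | and φ ψ, e => φ.Sat s e ∧ ψ.Sat s e
  | all t φ, e => ∀ x, x < t.val e → φ.Sat s (cons x e)

variable (M) in
/-- The discretely ordered semiring axioms (in addition to those of a linearly ordered
commutative semiring). -/
structure Discrete : Prop where
  nonneg : ∀ x : M, 0 ≤ x
  sub : ∀ x y : M, x ≤ y → ∃ z, x + z = y
  succ_le : ∀ x y : M, x < y → x + 1 ≤ y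

/-- `Σ⁰₁`-induction. -/
def SigmaOneInd (𝒳 : Set (Set M)) : Prop :=
  ∀ (φ : Fm) (e : ℕ → M) (s : ℕ → Set M), (∀ j, s j ∈ 𝒳) →
    (∃ y, φ.Sat s (cons y (cons 0 e))) →
    (∀ x, (∃ y, φ.Sat s (cons y (cons x e))) → ∃ y, φ.Sat s (cons y (cons (x + 1) e))) →
    ∀ x, ∃ y, φ.Sat s (cons y (cons x e))

/-- `Δ⁰₁`-comprehension. -/
def DeltaOneCA (𝒳 : Set (Set M)) : Prop :=
  ∀ (φ ψ : Fm) (e : ℕ → M) (s : ℕ → Set M), (∀ j, s j ∈ 𝒳) →
    (∀ x, (∃ y, φ.Sat s (cons y (cons x e))) ↔ (∀ y, ψ.Sat s (cons y (cons x e)))) →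
    {x | ∃ y, φ.Sat s (cons y (cons x e))} ∈ 𝒳

/-- The axioms of `RCA₀` for the structure `(M, 𝒳)`. -/
structure RCA0 (𝒳 : Set (Set M)) : Prop where
  discrete : Discrete M
  nonempty : 𝒳.Nonempty
  ind : SigmaOneInd 𝒳
  ca : DeltaOneCA 𝒳

/-- `Σ⁰₂`-collection. -/
def SigmaTwoColl (𝒳 : Set (Set M)) : Prop :=
  ∀ (φ : Fm) (e : ℕ → M) (s : ℕ → Set M), (∀ j, s j ∈ 𝒳) → ∀ a : M,
    (∀ x, x < a → ∃ y u, ∀ v, φ.Sat s (cons v (cons u (cons y (cons x e))))) →
    ∃ b, ∀ x, x < a → ∃ y, y < b ∧ ∃ u, ∀ v, φ.Sat s (cons v (cons u (cons y (cons x e))))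

/-- The usual code of the pair `(x, y)`. -/
def pr (x y : M) : M := (x + y) * (x + y) + x

/-- The code `pr k (pr m n)` stands for the binary string of length `k` whose digit number `i` is
`1` if and only if `m (i + 1) + 1` divides `n`. -/
def Bit (m n i : M) : Prop := (m * (i + 1) + 1) ∣ n

/-- The set `T` of (codes of) binary strings is a tree: if the string with the code
`pr k (pr m n)` is in `T` then every code of every initial segment of this string is in `T`. -/
def IsTree (T : Set M) : Prop :=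
  ∀ k m n k' m' n', pr k (pr m n) ∈ T → k' ≤ k → (∀ i, i < k' → (Bit m' n' i ↔ Bit m n i)) →
    pr k' (pr m' n') ∈ T

/-- Weak König's lemma: every tree in `𝒳` with strings of every length has a path in
`𝒳`. -/
def WKL (𝒳 : Set (Set M)) : Prop :=
  ∀ T ∈ 𝒳, IsTree T → (∀ k, ∃ m n, pr k (pr m n) ∈ T) →
    ∃ P ∈ 𝒳, ∀ k, ∃ m n, (∀ i, i < k → (Bit m n i ↔ i ∈ P)) ∧ pr k (pr m n) ∈ T

/-- There is a set of size `l` which is homogeneous with colour `1` for the colouring
`f(x, y) = 1 ↔ pr x y ∈ C` (`x < y`) of the pairs: the set `G` is (the graph of) an increasing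
enumeration `y_0 < y_1 < ⋯ < y_{l-1}` of it. -/
def HasHomog (𝒳 : Set (Set M)) (C : Set M) (l : M) : Prop :=
  ∃ G ∈ 𝒳, (∀ i, i < l → ∃! y, pr i y ∈ G) ∧
    ∀ i j y z, i < j → j < l → pr i y ∈ G → pr j z ∈ G → y < z ∧ pr y z ∈ C

/-- Bounded Ramsey's theorem for pairs and two colours: for every colouring
(`f(x, y) = 1 ↔ pr x y ∈ C` for `x < y`) and every `l` such that no homogeneous set for the colour
`1` has size `l`, there is an infinite homogeneous set for the colour `0`. -/
def BRT22 (𝒳 : Set (Set M)) : Prop :=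
  ∀ C ∈ 𝒳, ∀ l : M, ¬ HasHomog 𝒳 C l →
    ∃ H ∈ 𝒳, (∀ x, ∃ y ∈ H, x < y) ∧ ∀ x ∈ H, ∀ y ∈ H, x < y → pr x y ∉ C

end defs

end BRT
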