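import Mathlib
import Pool.Agent.Lib.MP_14f891_lc.Defs
import Pool.Agent.Lib.MP_14f891_lc.Comb

/-! A countable family of sequences of natural numbers closed under countably many operations
(MP_14f891_lc). -/

namespace BRT

open Filter

/-! ### coding -/

/-- the finite set with the code `c` -/
def dec (c : ℕ) : Finset ℕ := (Denumerable.eqv (Finset ℕ)).symm c

/-- the code of a finite set -/
def enc (S : Finset ℕ) : ℕ := Denumerable.eqv (Finset ℕ) S

@[simp] lemma dec_enc (S : Finset ℕ) : dec (enc S) = S := by simp [dec, enc]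

/-- the entry number `i` of the sequence with the code `c` -/
def nth : ℕ → ℕ → ℕ
  | 0, c => (Nat.unpair c).1
  | i + 1, c => nth i (Nat.unpair c).2

/-- truth in the natural numbers, all assignments given by codes -/
def SN (φ : Fm) (d : ℕ) (e : ℕ → ℕ) : Prop := φ.Sat (fun j => {x | x ∈ dec (nth j d)}) e

/-- the assignment with the code `c` -/
def asg (c : ℕ) : ℕ → ℕ := fun i => nth i c

open Classical in
/-- the code of a relation on `b × a` -/
noncomputable def relCode (b a : ℕ) (P : ℕ → ℕ → Prop) : ℕ :=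
  enc ((((Finset.range b) ×ˢ (Finset.range a)).filter (fun p => P p.1 p.2)).image
    (fun p => Nat.pair p.1 p.2))

lemma mem_relCode {b a : ℕ} {P : ℕ → ℕ → Prop} {w x : ℕ} :
    Nat.pair w x ∈ dec (relCode b a P) ↔ w < b ∧ x < a ∧ P w x := by
  classical
  unfold relCode
  rw [dec_enc, Finset.mem_image]
  constructor
  · rintro ⟨⟨w', x'⟩, h1, h2⟩
    rw [Finset.mem_filter, Finset.mem_product, Finset.mem_range, Finset.mem_range] at h1
    rw [Nat.pair_eq_pair] at h2
    obtain ⟨rfl, rfl⟩ := h2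
    exact ⟨h1.1.1, h1.1.2, h1.2⟩
  · rintro ⟨h1, h2, h3⟩
    refine ⟨(w, x), ?_, rfl⟩
    rw [Finset.mem_filter, Finset.mem_product, Finset.mem_range, Finset.mem_range]
    exact ⟨⟨h1, h2⟩, h3⟩

lemma pr_inj {x y x' y' : ℕ} (h : pr x y = pr x' y') : x = x' ∧ y = y' := by
  unfold pr at h
  have key : ∀ x y x' y' : ℕ, x + y < x' + y' → (x + y) * (x + y) + x < (x' + y') * (x' + y') + x' := by
    intro x y x' y' h
    nlinarith
  rcases lt_trichotomy (x + y) (x' + y') with h1 | h1 | h1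
  · have := key _ _ _ _ h1; omega
  · rw [h1] at h; omega
  · have := key _ _ _ _ h1; omega

lemma le_pr_left (x y : ℕ) : x ≤ pr x y := by unfold pr; omega
lemma le_pr_right (x y : ℕ) : y ≤ pr x y := by unfold pr; nlinarith

/-! ### the graphs -/

lemma exists_graph' (n : ℕ) : ∃ p : ℕ × (ℕ → ℕ → Prop),
    (∀ x y, p.2 x y → 2 ^ n + 2 ≤ x ∧ x < y ∧ y < p.1) ∧
    (∀ S : Finset ℕ, Clique p.2 S → S.card ≤ 2 ^ n) ∧
      T p.2 n (Finset.Ico (2 ^ n + 2) p.1) := by
  obtain ⟨b, E, h⟩ := exists_graph n (2 ^ n + 2) (Nat.succ_pos _)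
  exact ⟨(b, E), h⟩

/-- the upper end of the interval -/
noncomputable def bN (n : ℕ) : ℕ := (exists_graph' n).choose.1

/-- the graph on the interval -/
noncomputable def EN (n : ℕ) : ℕ → ℕ → Prop := (exists_graph' n).choose.2

lemma EN_range {n x y : ℕ} (h : EN n x y) : 2 ^ n + 2 ≤ x ∧ x < y ∧ y < bN n :=
  (exists_graph' n).choose_spec.1 x y h

lemma EN_clique (n : ℕ) (S : Finset ℕ) (h : Clique (EN n) S) : S.card ≤ 2 ^ n :=
  (exists_graph' n).choose_spec.2.1 S h

lemma EN_T (n : ℕ) : T (EN n) n (Finset.Ico (2 ^ n + 2) (bN n)) :=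
  (exists_graph' n).choose_spec.2.2

/-! ### the step of the construction -/

open Classical in
/-- the colour of `w` in the partition given by the relation with the code `R` -/
noncomputable def pcol (R a w : ℕ) : ℕ :=
  if h : ∃ x, x < a ∧ Nat.pair w x ∈ dec R then Nat.find h else a

lemma pcol_le (R a w : ℕ) : pcol R a w ≤ a := by
  classical
  unfold pcol
  split_ifs with h
  · exact (Nat.find_spec h).1.le
  · exact le_rfl

lemma pcol_lt {R a w : ℕ} (h : ∃ x, x < a ∧ Nat.pair w x ∈ dec R) : pcol R a w < a := by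
  classical
  unfold pcol
  rw [dif_pos h]
  exact (Nat.find_spec h).1

lemma pcol_spec {R a w : ℕ} (h : pcol R a w < a) : Nat.pair w (pcol R a w) ∈ dec R := by
  classical
  unfold pcol at h ⊢
  split_ifs at h ⊢ with h1
  · exact (Nat.find_spec h1).2
  · omega

/-- one step of the construction -/
def StepRel (n k D R a H D' : ℕ) : Prop :=
  dec D' ⊆ dec D ∧ T (EN n) (k + 1) (dec D') ∧
  ((∀ y ∈ dec D, a < y) → ∃ c, ∀ w ∈ dec D', pcol R a w = c) ∧
  ((∀ x ∈ dec H, ∀ u ∈ dec D', ∀ v ∈ dec D', ¬ (u ≤ x ∧ x ≤ v)) ∨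
    (∃ x ∈ dec H, ∃ y ∈ dec H, x < y ∧ EN n x y ∧ ∀ u ∈ dec D', y ≤ u)) ∧
  ∃ m ∈ dec D, ∀ u ∈ dec D', m < u

lemma exists_step {n k D : ℕ} (R a H : ℕ) (h : T (EN n) (k + 5) (dec D))
    (hD : ∀ y ∈ dec D, 1 < y) : ∃ D', StepRel n k D R a H D' := by
  obtain ⟨D1, h1, h2, h3⟩ : ∃ D1 ⊆ dec D, T (EN n) (k + 4) D1 ∧
      ((∀ y ∈ dec D, a < y) → ∃ c, ∀ w ∈ D1, pcol R a w = c) := by
    by_cases ha : ∀ y ∈ dec D, a < y
    · obtain ⟨c, D1, h1, h2, h3⟩ := h.partition (pcol R a) (fun x _ y hy =>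
        lt_of_le_of_lt (pcol_le R a x) (ha y hy))
      exact ⟨D1, h1, h2, fun _ => ⟨c, h3⟩⟩
    · obtain ⟨c, D1, h1, h2, h3⟩ := h.partition (fun _ => 0) (fun x _ y hy => by
        have := hD y hy; omega)
      exact ⟨D1, h1, h2, fun h => absurd h ha⟩
  obtain ⟨D2, h4, h5, h6⟩ := h2.gap (fun y hy => hD y (h1 hy)) {x | x ∈ dec H}
  obtain ⟨D3, h7, h8, m, hm, h9⟩ := h5.erase_min (fun y hy => hD y (h1 (h4 hy)))
  refine ⟨enc D3, ?_⟩
  unfold StepRel
  rw [dec_enc]
  refine ⟨h7.trans (h4.trans h1), h8, ?_, ?_, m, h1 (h4 hm), h9⟩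
  · intro ha
    obtain ⟨c, hc⟩ := h3 ha
    exact ⟨c, fun w hw => hc w (h4 (h7 hw))⟩
  · rcases h6 with h6 | ⟨x, hx, y, hy, hxy, hE, h6⟩
    · exact Or.inl (fun x hx u hu v hv => h6 x hx u (h7 hu) v (h7 hv))
    · exact Or.inr ⟨x, hx, y, hy, hxy, hE, fun u hu => h6 u (h7 hu)⟩

open Classical in
/-- the step function -/
noncomputable def stepF (n k D R a H : ℕ) : ℕ :=
  if h : ∃ D', StepRel n k D R a H D' then h.choose else 0

lemma stepF_spec {n k D : ℕ} (R a H : ℕ) (h : T (EN n) (k + 5) (dec D))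
    (hD : ∀ y ∈ dec D, 1 < y) : StepRel n k D R a H (stepF n k D R a H) := by
  unfold stepF
  rw [dif_pos (exists_step R a H h hD)]
  exact (exists_step R a H h hD).choose_spec

/-! ### the operations -/

/-- functions given by recursion -/
inductive Fn
  | add
  | mul
  | fact
  | prod

/-- the functions -/
def Fn.f : Fn → ℕ → ℕ → ℕ
  | add, p, i => p + i
  | mul, p, i => p * i
  | fact, _, i => i.factorial
  | prod, p, i => ∏ j ∈ Finset.range i, (p * (j + 1) + 1)

/-- the relation used to show that an initial segment is closed under a recursive function -/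
noncomputable def recRF (f : Fn) (p y b : ℕ) : ℕ :=
  relCode b (y + 1) (fun w i => w ≤ f.f p i ∧ ∀ i' < i, f.f p i' < w)

open Classical in
/-- least counterexample -/
noncomputable def witF (φ : Fm) (c d t : ℕ) : ℕ :=
  if h : ∃ x, x < t ∧ ¬ SN φ d (cons x (asg c)) then Nat.find h else 0

open Classical in
/-- the set for `Δ⁰₁`-comprehension -/
noncomputable def dcaF (φ ψ : Fm) (c d b : ℕ) : ℕ :=
  enc ((Finset.range b).filter (fun x => ∃ y, y < b ∧ SN φ d (cons y (cons x (asg c))) ∧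
    ∀ z, z < y → SN ψ d (cons z (cons x (asg c)))))

/-- the relation for `Σ⁰₁`-induction -/
noncomputable def indF (φ : Fm) (c d x0 b : ℕ) : ℕ :=
  relCode b (x0 + 1) (fun w i => (¬ ∃ y, y < w ∧ SN φ d (cons y (cons i (asg c)))) ∧
    ∀ i' < i, ∃ y, y < w ∧ SN φ d (cons y (cons i' (asg c))))

/-- the matrix of a `Σ⁰₂` formula -/
def M2 (φ : Fm) (c d x y u w : ℕ) : Prop :=
  ∀ v, v < w → SN φ d (cons v (cons u (cons y (cons x (asg c)))))

/-- the least bound for the witnesses -/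
noncomputable def zeta (φ : Fm) (c d w x : ℕ) : ℕ :=
  sInf {z | ∃ y, y < z ∧ ∃ u, u < z ∧ M2 φ c d x y u w}

/-- the relation for `Σ⁰₂`-collection -/
noncomputable def bsRF (φ : Fm) (c d a b : ℕ) : ℕ :=
  relCode b a (fun w x => ∀ x', x' < a → zeta φ c d w x' ≤ zeta φ c d w x)

open Classical in
/-- the best witnesses below `z` -/
noncomputable def bsWF (φ : Fm) (c d z x b : ℕ) : ℕ :=
  if h : ∃ q : ℕ × ℕ, q.1 < z ∧ q.2 < z ∧ M2 φ c d x q.1 q.2
      (Nat.findGreatest (fun w => ∃ y, y < z ∧ ∃ u, u < z ∧ M2 φ c d x y u w) b)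
    then Nat.pair h.choose.1 h.choose.2 else 0

/-- the set of the string with the code `(k, m, n)` -/
def strF (k m n : ℕ) : ℕ := enc ((Finset.range k).filter (fun i => (m * (i + 1) + 1) ∣ n))

/-- the third component of the code of the initial segment of length `k` of `S` -/
def cnF (k S : ℕ) : ℕ :=
  ∏ i ∈ (Finset.range k).filter (fun i => i ∈ dec S), (k.factorial * (i + 1) + 1)

/-- the code of the initial segment of length `k` of `S` -/
def codeF (k S : ℕ) : ℕ := pr k (pr k.factorial (cnF k S))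

open Classical in
/-- least counterexample -/
noncomputable def ceF (t S k : ℕ) : ℕ :=
  if h : ∃ k', k' ≤ k ∧ codeF k' S ∉ dec t then Nat.find h else 0

open Classical in
/-- the longest path -/
noncomputable def pathF (t b : ℕ) : ℕ :=
  if h : ∃ S, ∀ k, k ≤ Nat.findGreatest (fun l => ∃ S, ∀ k, k ≤ l → codeF k S ∈ dec t) b →
      codeF k S ∈ dec t
    then h.choose else 0

open Classical in
/-- the least `y` with `pr i y ∈ G` -/
noncomputable def hminF (G i : ℕ) : ℕ := if h : ∃ y, pr i y ∈ dec G then Nat.find h else 0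

open Classical in
/-- least counterexample -/
noncomputable def ce1F (G l : ℕ) : ℕ :=
  if h : ∃ i, i < l ∧ ¬ ∃ y, pr i y ∈ dec G then Nat.find h else 0

open Classical in
/-- counterexample -/
noncomputable def ce2F (C G l : ℕ) : ℕ :=
  if h : ∃ q : ℕ × ℕ, q.1 < q.2 ∧ q.2 < l ∧ ¬ (hminF G q.1 < hminF G q.2 ∧
      pr (hminF G q.1) (hminF G q.2) ∈ dec C) then Nat.pair h.choose.1 h.choose.2 else 0

open Classical in
/-- an edge below `D` -/
noncomputable def edgeF (n H D : ℕ) : ℕ :=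
  if h : ∃ q : ℕ × ℕ, q.1 ∈ dec H ∧ q.2 ∈ dec H ∧ q.1 < q.2 ∧ EN n q.1 q.2 ∧
      ∀ u ∈ dec D, q.2 ≤ u then Nat.pair h.choose.1 h.choose.2 else 0

open Classical in
/-- the code of the graph -/
noncomputable def ecodeF (n : ℕ) : ℕ :=
  enc ((((Finset.range (bN n)) ×ˢ (Finset.range (bN n))).filter (fun p => EN n p.1 p.2)).image
    (fun p => pr p.1 p.2))

/-- the least element -/
noncomputable def mnF (D : ℕ) : ℕ := sInf {x | x ∈ dec D}

/-- the operations -/
inductive Op
  | const (m : ℕ)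
  | add
  | mul
  | sub
  | div
  | unp1
  | unp2
  | mn
  | step
  | pcol
  | top
  | ell
  | d0
  | ecode
  | fn (f : Fn)
  | recR (f : Fn)
  | wit (φ : Fm)
  | dca (φ ψ : Fm)
  | ind (φ : Fm)
  | bsR (φ : Fm)
  | bsW (φ : Fm)
  | str
  | cn
  | ce
  | path
  | hmin
  | ce1
  | ce2
  | edge

/-- first component -/
def p1 (c : ℕ) : ℕ := (Nat.unpair c).1
/-- second component -/
def p2 (c : ℕ) : ℕ := (Nat.unpair c).2

@[simp] lemma p1_pair (a b : ℕ) : p1 (Nat.pair a b) = a := by simp [p1]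
@[simp] lemma p2_pair (a b : ℕ) : p2 (Nat.pair a b) = b := by simp [p2]

/-- the meaning of the operations; several arguments are coded as `(x, (y, (z, …)))` -/
noncomputable def Op.fun : Op → ℕ → ℕ
  | const m, _ => m
  | add, c => p1 c + p2 c
  | mul, c => p1 c * p2 c
  | sub, c => p1 c - p2 c
  | div, c => p1 c / p2 c
  | unp1, c => p1 c
  | unp2, c => p2 c
  | mn, c => mnF c
  | step, c => stepF (p1 c) (p1 (p2 c)) (p1 (p2 (p2 c))) (p1 (p2 (p2 (p2 c))))
      (p1 (p2 (p2 (p2 (p2 c))))) (p2 (p2 (p2 (p2 (p2 c)))))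
  | pcol, c => BRT.pcol (p1 c) (p1 (p2 c)) (p2 (p2 c))
  | top, c => bN c
  | ell, c => 2 ^ c + 1
  | d0, c => enc (Finset.Ico (2 ^ c + 2) (bN c))
  | ecode, c => ecodeF c
  | fn f, c => f.f (p1 c) (p2 c)
  | recR f, c => recRF f (p1 c) (p1 (p2 c)) (p2 (p2 c))
  | wit φ, c => witF φ (p1 c) (p1 (p2 c)) (p2 (p2 c))
  | dca φ ψ, c => dcaF φ ψ (p1 c) (p1 (p2 c)) (p2 (p2 c))
  | ind φ, c => indF φ (p1 c) (p1 (p2 c)) (p1 (p2 (p2 c))) (p2 (p2 (p2 c)))
  | bsR φ, c => bsRF φ (p1 c) (p1 (p2 c)) (p1 (p2 (p2 c))) (p2 (p2 (p2 c)))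
  | bsW φ, c => bsWF φ (p1 c) (p1 (p2 c)) (p1 (p2 (p2 c))) (p1 (p2 (p2 (p2 c))))
      (p2 (p2 (p2 (p2 c))))
  | str, c => strF (p1 c) (p1 (p2 c)) (p2 (p2 c))
  | cn, c => cnF (p1 c) (p2 c)
  | ce, c => ceF (p1 c) (p1 (p2 c)) (p2 (p2 c))
  | path, c => pathF (p1 c) (p2 c)
  | hmin, c => hminF (p1 c) (p2 c)
  | ce1, c => ce1F (p1 c) (p2 c)
  | ce2, c => ce2F (p1 c) (p1 (p2 c)) (p2 (p2 c))
  | edge, c => edgeF (p1 c) (p1 (p2 c)) (p2 (p2 c))

/-- terms for sequences of natural numbers -/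
inductive Term
  | id
  | pair (s t : Term)
  | app (o : Op) (t : Term)

/-- the sequence given by a term -/
noncomputable def Term.ev : Term → ℕ → ℕ
  | id, n => n
  | pair s t, n => Nat.pair (s.ev n) (t.ev n)
  | app o t, n => o.fun (t.ev n)

/-! ### countability -/

/-- code -/
def Tm.num : Tm → ℕ
  | var i => Nat.pair 0 i
  | zero => Nat.pair 1 0
  | one => Nat.pair 2 0
  | add s t => Nat.pair 3 (Nat.pair s.num t.num)
  | mul s t => Nat.pair 4 (Nat.pair s.num t.num)

lemma Tm.num_inj : Function.Injective Tm.num := by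
  intro s
  induction s with
  | var i => intro t h; cases t <;> simp [Tm.num] at h; rw [h]
  | zero => intro t h; cases t <;> simp [Tm.num] at h; rfl
  | one => intro t h; cases t <;> simp [Tm.num] at h; rfl
  | add a b iha ihb => intro t h; cases t <;> simp [Tm.num] at h; rw [iha h.1, ihb h.2]
  | mul a b iha ihb => intro t h; cases t <;> simp [Tm.num] at h; rw [iha h.1, ihb h.2]

/-- code -/
def Fm.num : Fm → ℕ
  | eq s t => Nat.pair 0 (Nat.pair s.num t.num)
  | lt s t => Nat.pair 1 (Nat.pair s.num t.num)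
  | mem t j => Nat.pair 2 (Nat.pair t.num j)
  | neg φ => Nat.pair 3 φ.num
  | and φ ψ => Nat.pair 4 (Nat.pair φ.num ψ.num)
  | all t φ => Nat.pair 5 (Nat.pair t.num φ.num)

lemma Fm.num_inj : Function.Injective Fm.num := by
  intro s
  induction s with
  | eq a b => intro t h; cases t <;> simp [Fm.num] at h; rw [Tm.num_inj h.1, Tm.num_inj h.2]
  | lt a b => intro t h; cases t <;> simp [Fm.num] at h; rw [Tm.num_inj h.1, Tm.num_inj h.2]
  | mem a j => intro t h; cases t <;> simp [Fm.num] at h; rw [Tm.num_inj h.1, h.2]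
  | neg φ ih => intro t h; cases t <;> simp [Fm.num] at h; rw [ih h]
  | and φ ψ ih1 ih2 => intro t h; cases t <;> simp [Fm.num] at h; rw [ih1 h.1, ih2 h.2]
  | all t φ ih => intro t h; cases t <;> simp [Fm.num] at h; rw [Tm.num_inj h.1, ih h.2]

/-- code -/
def Fn.num : Fn → ℕ
  | add => 0
  | mul => 1
  | fact => 2
  | prod => 3

lemma Fn.num_inj : Function.Injective Fn.num := by
  intro s t h
  cases s <;> cases t <;> simp_all [Fn.num]

/-- code -/
def Op.num : Op → ℕ
  | const m => Nat.pair 0 m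
  | add => Nat.pair 1 0
  | mul => Nat.pair 2 0
  | sub => Nat.pair 3 0
  | div => Nat.pair 4 0
  | unp1 => Nat.pair 5 0
  | unp2 => Nat.pair 6 0
  | mn => Nat.pair 7 0
  | step => Nat.pair 8 0
  | pcol => Nat.pair 9 0
  | top => Nat.pair 10 0
  | ell => Nat.pair 11 0
  | d0 => Nat.pair 12 0
  | ecode => Nat.pair 13 0
  | fn f => Nat.pair 14 f.num
  | recR f => Nat.pair 15 f.num
  | wit φ => Nat.pair 16 φ.num
  | dca φ ψ => Nat.pair 17 (Nat.pair φ.num ψ.num)
  | ind φ => Nat.pair 18 φ.num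
  | bsR φ => Nat.pair 19 φ.num
  | bsW φ => Nat.pair 20 φ.num
  | str => Nat.pair 21 0
  | cn => Nat.pair 22 0
  | ce => Nat.pair 23 0
  | path => Nat.pair 24 0
  | hmin => Nat.pair 25 0
  | ce1 => Nat.pair 26 0
  | ce2 => Nat.pair 27 0
  | edge => Nat.pair 28 0

lemma Op.num_inj : Function.Injective Op.num := by
  intro s t h
  cases s <;> cases t <;>
    simp_all [Op.num, Fn.num_inj.eq_iff, Fm.num_inj.eq_iff]

/-- code -/
def Term.num : Term → ℕ
  | id => Nat.pair 0 0
  | pair s t => Nat.pair 1 (Nat.pair s.num t.num)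
  | app o t => Nat.pair 2 (Nat.pair o.num t.num)

lemma Term.num_inj : Function.Injective Term.num := by
  intro s
  induction s with
  | id => intro t h; cases t <;> simp [Term.num] at h; rfl
  | pair a b iha ihb => intro t h; cases t <;> simp [Term.num] at h; rw [iha h.1, ihb h.2]
  | app o a ih => intro t h; cases t <;> simp [Term.num] at h; rw [Op.num_inj h.1, ih h.2]

/-- the term with a given code -/
noncomputable def Term.ofNum (m : ℕ) : Term := by
  classical
  exact if h : ∃ t : Term, t.num = m then h.choose else Term.id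

lemma Term.ofNum_num (t : Term) : Term.ofNum t.num = t := by
  unfold Term.ofNum
  rw [dif_pos ⟨t, rfl⟩]
  exact Term.num_inj (Exists.choose_spec (⟨t, rfl⟩ : ∃ s : Term, s.num = t.num))

end BRT
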