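import Mathlib
import Pool.Agent.Lib.MP_14f891_lc.Terms

/-! The generic sequence of finite sets and the cut given by it (MP_14f891_lc). -/

namespace BRT

open Filter

/-- the ultrafilter -/
noncomputable abbrev hyp : Filter ℕ := (hyperfilter ℕ : Filter ℕ)

lemma ae_of_ge {P : ℕ → Prop} (N : ℕ) (h : ∀ n, N ≤ n → P n) : ∀ᶠ n in hyp, P n := by
  have h1 : ∀ᶠ n in cofinite, P n := by
    rw [Nat.cofinite_eq_atTop]
    exact eventually_atTop.2 ⟨N, h⟩
  exact hyperfilter_le_cofinite h1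

lemma ae_not {P : ℕ → Prop} : (¬ ∀ᶠ n in hyp, P n) ↔ ∀ᶠ n in hyp, ¬ P n :=
  Ultrafilter.eventually_not.symm

lemma ae_or {P P' : ℕ → Prop} : (∀ᶠ n in hyp, P n ∨ P' n) ↔
    (∀ᶠ n in hyp, P n) ∨ ∀ᶠ n in hyp, P' n :=
  Ultrafilter.eventually_or

lemma not_ae_false : ¬ ∀ᶠ _ in hyp, False := by
  intro h
  have := h.exists
  obtain ⟨_, h⟩ := this
  exact h

/-! ### terms -/

namespace Term

/-- constant -/
def tconst (m : ℕ) : Term := app (.const m) id
/-- sum -/
def tadd (s t : Term) : Term := app .add (pair s t)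
/-- product -/
def tmul (s t : Term) : Term := app .mul (pair s t)
/-- difference -/
def tsub (s t : Term) : Term := app .sub (pair s t)
/-- quotient -/
def tdiv (s t : Term) : Term := app .div (pair s t)
/-- minimum of the set with a given code -/
def tmn (s : Term) : Term := app .mn s

@[simp] lemma ev_id (n : ℕ) : Term.id.ev n = n := rfl
@[simp] lemma ev_pair (s t : Term) (n : ℕ) : (pair s t).ev n = Nat.pair (s.ev n) (t.ev n) := rfl
@[simp] lemma ev_const (m n : ℕ) : (tconst m).ev n = m := rfl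
@[simp] lemma ev_add (s t : Term) (n : ℕ) : (tadd s t).ev n = s.ev n + t.ev n := by
  simp [tadd, Term.ev, Op.fun]
@[simp] lemma ev_mul (s t : Term) (n : ℕ) : (tmul s t).ev n = s.ev n * t.ev n := by
  simp [tmul, Term.ev, Op.fun]
@[simp] lemma ev_sub (s t : Term) (n : ℕ) : (tsub s t).ev n = s.ev n - t.ev n := by
  simp [tsub, Term.ev, Op.fun]
@[simp] lemma ev_div (s t : Term) (n : ℕ) : (tdiv s t).ev n = s.ev n / t.ev n := by
  simp [tdiv, Term.ev, Op.fun]
@[simp] lemma ev_mn (s : Term) (n : ℕ) : (tmn s).ev n = mnF (s.ev n) := rfl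

end Term

open Term

/-! ### the sequence -/

/-- requirement: partition -/
noncomputable def reqR (i : ℕ) : Term := ofNum (p1 (p1 i))
/-- requirement: number of parts -/
noncomputable def reqA (i : ℕ) : Term := ofNum (p1 (p2 (p1 i)))
/-- requirement: set -/
noncomputable def reqH (i : ℕ) : Term := ofNum (p2 (p2 (p1 i)))

lemma exists_req (R a H : Term) (N : ℕ) : ∃ i, N ≤ i ∧ reqR i = R ∧ reqA i = a ∧ reqH i = H := by
  refine ⟨Nat.pair (Nat.pair R.num (Nat.pair a.num H.num)) N, Nat.right_le_pair _ _, ?_, ?_, ?_⟩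
  · simp [reqR, ofNum_num]
  · simp [reqA, ofNum_num]
  · simp [reqH, ofNum_num]

/-- the sequence of finite sets -/
noncomputable def Ds : ℕ → Term
  | 0 => app .d0 id
  | i + 1 => app .step (pair id (pair (tsub id (tconst (4 * i + 5))) (pair (Ds i)
      (pair (reqR i) (pair (reqA i) (reqH i))))))

lemma Ds_succ_ev (i n : ℕ) : (Ds (i + 1)).ev n = stepF n (n - (4 * i + 5)) ((Ds i).ev n)
    ((reqR i).ev n) ((reqA i).ev n) ((reqH i).ev n) := by
  simp [Ds, Term.ev, Op.fun, tsub, tconst]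

lemma Ds_zero_ev (n : ℕ) : dec ((Ds 0).ev n) = Finset.Ico (2 ^ n + 2) (bN n) := by
  simp [Ds, Term.ev, Op.fun]

lemma inv_aux (i : ℕ) : ∀ᶠ n in hyp, T (EN n) (n - 4 * i) (dec ((Ds i).ev n)) ∧
    dec ((Ds i).ev n) ⊆ Finset.Ico (2 ^ n + 2) (bN n) := by
  induction i with
  | zero =>
    refine Eventually.of_forall fun n => ?_
    rw [Ds_zero_ev]
    exact ⟨EN_T n, Finset.Subset.refl _⟩
  | succ i ih =>
    filter_upwards [ih, ae_of_ge (P := fun n => 4 * i + 5 ≤ n) (4 * i + 5) (fun n h => h)]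
      with n h1 h2
    rw [Ds_succ_ev]
    have h3 : n - 4 * i = (n - (4 * i + 5)) + 5 := by omega
    have h4 := stepF_spec (k := n - (4 * i + 5)) ((reqR i).ev n) ((reqA i).ev n) ((reqH i).ev n)
      (h3 ▸ h1.1) (by
        intro y hy
        have := (Finset.mem_Ico.1 (h1.2 hy)).1
        have : 1 ≤ 2 ^ n := Nat.one_le_two_pow
        omega)
    refine ⟨?_, h4.1.trans h1.2⟩
    have h5 : n - 4 * (i + 1) = n - (4 * i + 5) + 1 := by omega
    rw [h5]
    exact h4.2.1

lemma step_ae (i : ℕ) : ∀ᶠ n in hyp, StepRel n (n - (4 * i + 5)) ((Ds i).ev n)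
    ((reqR i).ev n) ((reqA i).ev n) ((reqH i).ev n) ((Ds (i + 1)).ev n) := by
  filter_upwards [inv_aux i, ae_of_ge (P := fun n => 4 * i + 5 ≤ n) (4 * i + 5) (fun n h => h)]
    with n h1 h2
  rw [Ds_succ_ev]
  have h3 : n - 4 * i = (n - (4 * i + 5)) + 5 := by omega
  exact stepF_spec (k := n - (4 * i + 5)) ((reqR i).ev n) ((reqA i).ev n) ((reqH i).ev n)
      (h3 ▸ h1.1) (by
        intro y hy
        have := (Finset.mem_Ico.1 (h1.2 hy)).1
        have : 1 ≤ 2 ^ n := Nat.one_le_two_pow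
        omega)

lemma mnF_mem {D : ℕ} (h : (dec D).Nonempty) : mnF D ∈ dec D := by
  have : ({x | x ∈ dec D} : Set ℕ).Nonempty := h
  exact Nat.sInf_mem this

lemma mnF_le {D y : ℕ} (h : y ∈ dec D) : mnF D ≤ y := Nat.sInf_le h

/-- the minima -/
noncomputable def mm (i : ℕ) : Term := tmn (Ds i)

lemma Ds_sub {i j : ℕ} (h : i ≤ j) : ∀ᶠ n in hyp, dec ((Ds j).ev n) ⊆ dec ((Ds i).ev n) := by
  induction j, h using Nat.le_induction with
  | base => exact Eventually.of_forall fun n => Finset.Subset.refl _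
  | succ j _ ih =>
    filter_upwards [ih, step_ae j] with n h1 h2
    exact h2.1.trans h1

lemma mm_mem {i j : ℕ} (h : i ≤ j) : ∀ᶠ n in hyp, (mm j).ev n ∈ dec ((Ds i).ev n) := by
  filter_upwards [Ds_sub h, inv_aux j] with n h1 h2
  exact h1 (mnF_mem h2.1.nonempty)

lemma mm_le {i : ℕ} : ∀ᶠ n in hyp, ∀ y ∈ dec ((Ds i).ev n), (mm i).ev n ≤ y :=
  Eventually.of_forall fun _ _ hy => mnF_le hy

lemma mm_lt_succ (i : ℕ) : ∀ᶠ n in hyp, (mm i).ev n < (mm (i + 1)).ev n := by
  filter_upwards [step_ae i, mm_mem (le_refl (i + 1)), mm_le (i := i)] with n h1 h2 h3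
  obtain ⟨m, hm, hm2⟩ := h1.2.2.2.2
  exact lt_of_le_of_lt (h3 m hm) (hm2 _ h2)

lemma mm_lt {i j : ℕ} (h : i < j) : ∀ᶠ n in hyp, (mm i).ev n < (mm j).ev n := by
  induction j, h using Nat.le_induction with
  | base => exact mm_lt_succ i
  | succ j _ ih =>
    filter_upwards [ih, mm_lt_succ j] with n h1 h2
    omega

lemma mm_mono {i j : ℕ} (h : i ≤ j) : ∀ᶠ n in hyp, (mm i).ev n ≤ (mm j).ev n := by
  rcases h.lt_or_eq with h | h
  · filter_upwards [mm_lt h] with n h1 using h1.le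
  · rw [h]; exact Eventually.of_forall fun n => le_rfl

lemma mm_range (i : ℕ) : ∀ᶠ n in hyp, 2 ^ n + 2 ≤ (mm i).ev n ∧ (mm i).ev n < bN n := by
  filter_upwards [inv_aux i, mm_mem (le_refl i)] with n h1 h2
  exact Finset.mem_Ico.1 (h1.2 h2)

/-! ### the cut -/

/-- the cut -/
def InM (t : Term) : Prop := ∃ i, ∀ᶠ n in hyp, t.ev n ≤ (mm i).ev n

lemma InM.of_le {s t : Term} (h : InM t) (hst : ∀ᶠ n in hyp, s.ev n ≤ t.ev n) : InM s := by
  obtain ⟨i, hi⟩ := h
  exact ⟨i, by filter_upwards [hi, hst] with n h1 h2 using h2.trans h1⟩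

lemma InM.ge {t : Term} (h : InM t) : ∃ i, ∀ j, i ≤ j → ∀ᶠ n in hyp, t.ev n < (mm j).ev n := by
  obtain ⟨i, hi⟩ := h
  refine ⟨i + 1, fun j hj => ?_⟩
  filter_upwards [hi, mm_lt (show i < j by omega)] with n h1 h2 using lt_of_le_of_lt h1 h2

lemma inM_mm (i : ℕ) : InM (mm i) := ⟨i, Eventually.of_forall fun _ => le_rfl⟩

lemma InM.lt_top {t : Term} (h : InM t) : ∀ᶠ n in hyp, t.ev n < bN n := by
  obtain ⟨i, hi⟩ := h
  filter_upwards [hi, mm_range i] with n h1 h2 using lt_of_le_of_lt h1 h2.2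

lemma not_inM {t : Term} (h : ¬ InM t) (i : ℕ) : ∀ᶠ n in hyp, (mm i).ev n < t.ev n := by
  by_contra h1
  rw [ae_not] at h1
  exact h ⟨i, by filter_upwards [h1] with n h2 using not_lt.1 h2⟩

lemma inM_small {t : Term} (h : ∀ᶠ n in hyp, t.ev n ≤ 2 ^ n + 2) : InM t :=
  ⟨0, by filter_upwards [h, mm_range 0] with n h1 h2 using h1.trans h2.1⟩

lemma inM_const (m : ℕ) : InM (tconst m) := by
  apply inM_small
  apply ae_of_ge m
  intro n hn
  rw [ev_const]
  have : n < 2 ^ n := Nat.lt_two_pow_self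
  omega

lemma InM.succ {t : Term} (h : InM t) : InM (tadd t (tconst 1)) := by
  obtain ⟨i, hi⟩ := h
  refine ⟨i + 1, ?_⟩
  filter_upwards [hi, mm_lt_succ i] with n h1 h2
  simp only [ev_add, ev_const]
  omega

/-- Regularity of the cut. -/
theorem reg (R a : Term) (ha : InM a)
    (h : ∀ w : Term, InM w → ∀ᶠ n in hyp, ∃ x, x < a.ev n ∧ Nat.pair (w.ev n) x ∈ dec (R.ev n)) :
    ∃ c : Term, (∀ᶠ n in hyp, c.ev n < a.ev n) ∧
      ∃ i₀, ∀ j, i₀ ≤ j → ∀ᶠ n in hyp, Nat.pair ((mm j).ev n) (c.ev n) ∈ dec (R.ev n) := by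
  obtain ⟨i1, hi1⟩ := ha.ge
  obtain ⟨i, hi, hR, hA, -⟩ := exists_req R a Term.id i1
  let c : Term := app .pcol (pair R (pair a (mm (i + 1))))
  have hc : ∀ n, c.ev n = pcol (R.ev n) (a.ev n) ((mm (i + 1)).ev n) := by
    intro n
    simp [c, Term.ev, Op.fun]
  have hst := step_ae i
  rw [hR, hA] at hst
  have key : ∀ j, i + 1 ≤ j → ∀ᶠ n in hyp, pcol (R.ev n) (a.ev n) ((mm j).ev n) = c.ev n := by
    intro j hj
    filter_upwards [hst, hi1 i hi, mm_le (i := i), mm_mem hj, mm_mem (le_refl (i + 1))]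
      with n h1 h2 h3 h4 h5
    obtain ⟨c', hc'⟩ := h1.2.2.1 (fun y hy => lt_of_lt_of_le h2 (h3 y hy))
    rw [hc, hc' _ h4, hc' _ h5]
  refine ⟨c, ?_, i + 1, ?_⟩
  · filter_upwards [h _ (inM_mm (i + 1))] with n h1
    rw [hc]
    exact pcol_lt h1
  · intro j hj
    filter_upwards [h _ (inM_mm j), key j hj] with n h1 h2
    rw [← h2]
    exact pcol_spec (pcol_lt h1)

/-- the cut is closed under functions given by recursion -/
theorem InM.rec (f : Fn) {p y : Term} (hy : InM y)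
    (h0 : InM (app (.fn f) (pair p (tconst 0))))
    (hs : ∀ t, InM t → InM (app (.fn f) (pair p t)) →
      InM (app (.fn f) (pair p (tadd t (tconst 1))))) :
    InM (app (.fn f) (pair p y)) := by
  by_contra hcon
  have hev : ∀ (t : Term) n, (app (.fn f) (pair p t)).ev n = f.f (p.ev n) (t.ev n) := by
    intro t n; simp [Term.ev, Op.fun]
  let R : Term := app (.recR f) (pair p (pair y (app .top Term.id)))
  have hR : ∀ n, R.ev n = recRF f (p.ev n) (y.ev n) (bN n) := by
    intro n; simp [R, Term.ev, Op.fun]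
  have hmem : ∀ n w x, Nat.pair w x ∈ dec (R.ev n) ↔ w < bN n ∧ x < y.ev n + 1 ∧
      w ≤ f.f (p.ev n) x ∧ ∀ i' < x, f.f (p.ev n) i' < w := by
    intro n w x
    rw [hR, recRF, mem_relCode]
  obtain ⟨c, hc, i₀, hi₀⟩ := reg R (tadd y (tconst 1)) hy.succ (by
    intro w hw
    obtain ⟨i, hi⟩ := hw
    filter_upwards [hi, not_inM hcon i, (inM_mm i).lt_top] with n h1 h2 h3
    rw [hev] at h2
    have hex : ∃ x, w.ev n ≤ f.f (p.ev n) x := ⟨y.ev n, by omega⟩
    classical
    refine ⟨Nat.find hex, ?_, ?_⟩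
    · rw [ev_add, ev_const]
      exact Nat.lt_succ_of_le (Nat.find_min' hex (by omega))
    · rw [hmem]
      refine ⟨by omega, Nat.lt_succ_of_le (Nat.find_min' hex (by omega)), Nat.find_spec hex, ?_⟩
      intro i' hi'
      exact not_le.1 (Nat.find_min hex hi'))
  -- c is positive
  obtain ⟨i1, hi1⟩ := h0.ge
  let d : Term := tsub c (tconst 1)
  have hcd : ∀ᶠ n in hyp, c.ev n = d.ev n + 1 := by
    filter_upwards [hi1 (max i₀ i1) (le_max_right _ _), hi₀ (max i₀ i1) (le_max_left _ _)]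
      with n h1 h2
    rw [hmem] at h2
    rw [hev, ev_const] at h1
    have h3 : c.ev n ≠ 0 := by
      intro h4
      rw [h4] at h2
      omega
    simp only [d, ev_sub, ev_const]
    omega
  have hd : InM d := by
    apply hy.of_le
    filter_upwards [hc, hcd] with n h1 h2
    rw [ev_add, ev_const] at h1
    omega
  have hfd : InM (app (.fn f) (pair p d)) := by
    refine ⟨i₀, ?_⟩
    filter_upwards [hi₀ i₀ le_rfl, hcd] with n h1 h2
    rw [hmem] at h1
    rw [hev]
    exact (h1.2.2.2 (d.ev n) (by omega)).le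
  obtain ⟨i2, hi2⟩ := (hs d hd hfd).ge
  apply not_ae_false
  filter_upwards [hi2 (max i₀ i2) (le_max_right _ _), hi₀ (max i₀ i2) (le_max_left _ _), hcd]
    with n h1 h2 h3
  rw [hmem] at h2
  rw [hev, ev_add, ev_const, ← h3] at h1
  omega

lemma InM.add {x y : Term} (hx : InM x) (hy : InM y) : InM (tadd x y) := by
  have hev : ∀ (t : Term) n, (app (.fn .add) (pair x t)).ev n = x.ev n + t.ev n := by
    intro t n; simp [Term.ev, Op.fun, Fn.f]
  have h := InM.rec .add (p := x) hy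
    (hx.of_le (Eventually.of_forall fun n => by rw [hev, ev_const]; simp))
    (by
      intro t ht hft
      apply hft.succ.of_le
      exact Eventually.of_forall fun n => by
        rw [hev, ev_add, ev_add, hev, ev_const]; omega)
  exact h.of_le (Eventually.of_forall fun n => by rw [hev, ev_add])

lemma InM.mul {x y : Term} (hx : InM x) (hy : InM y) : InM (tmul x y) := by
  have hev : ∀ (t : Term) n, (app (.fn .mul) (pair x t)).ev n = x.ev n * t.ev n := by
    intro t n; simp [Term.ev, Op.fun, Fn.f]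
  have h := InM.rec .mul (p := x) hy
    ((inM_const 0).of_le (Eventually.of_forall fun n => by rw [hev, ev_const]; simp))
    (by
      intro t ht hft
      apply (hft.add hx).of_le
      exact Eventually.of_forall fun n => by
        rw [hev, ev_add, ev_add, hev, ev_const, Nat.mul_add, Nat.mul_one])
  exact h.of_le (Eventually.of_forall fun n => by rw [hev, ev_mul])

end BRT
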