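import Mathlib
import Pool.Agent.Lib.MP_14f891_lc.Seq

/-! The model and the transfer theorem for bounded formulas (MP_14f891_lc). -/

namespace BRT

open Filter Term

/-! ### free variables -/

/-- bound for the variables -/
def Tm.fv : Tm → ℕ
  | var i => i + 1
  | zero => 0
  | one => 0
  | add s t => max s.fv t.fv
  | mul s t => max s.fv t.fv

/-- bound for the variables -/
def Fm.fv : Fm → ℕ
  | eq s t => max s.fv t.fv
  | lt s t => max s.fv t.fv
  | mem t j => max t.fv (j + 1)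
  | neg φ => φ.fv
  | and φ ψ => max φ.fv ψ.fv
  | all t φ => max t.fv φ.fv

section congr

variable {M : Type*} [CommSemiring M] [LinearOrder M]

lemma Tm.val_congr {t : Tm} {e e' : ℕ → M} (h : ∀ i < t.fv, e i = e' i) : t.val e = t.val e' := by
  induction t with
  | var i => exact h i (Nat.lt_succ_self i)
  | zero => rfl
  | one => rfl
  | add a b iha ihb =>
    simp only [Tm.val]
    rw [iha fun i hi => h i (lt_of_lt_of_le hi (le_max_left _ _)),
      ihb fun i hi => h i (lt_of_lt_of_le hi (le_max_right _ _))]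
  | mul a b iha ihb =>
    simp only [Tm.val]
    rw [iha fun i hi => h i (lt_of_lt_of_le hi (le_max_left _ _)),
      ihb fun i hi => h i (lt_of_lt_of_le hi (le_max_right _ _))]

lemma cons_congr {e e' : ℕ → M} {N : ℕ} (x : M) (h : ∀ i < N, e i = e' i) :
    ∀ i < N, cons x e i = cons x e' i := by
  intro i hi
  cases i with
  | zero => rfl
  | succ i => exact h i (by omega)

lemma cons_congr' {e e' : ℕ → M} {N : ℕ} (x : M) (h : ∀ i < N, e i = e' i) :
    ∀ i < N + 1, cons x e i = cons x e' i := by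
  intro i hi
  cases i with
  | zero => rfl
  | succ i => exact h i (by omega)

lemma Fm.sat_congr {φ : Fm} {s s' : ℕ → Set M} {e e' : ℕ → M} (h : ∀ i < φ.fv, e i = e' i)
    (hs : ∀ j < φ.fv, s j = s' j) : φ.Sat s e ↔ φ.Sat s' e' := by
  induction φ generalizing e e' with
  | eq a b =>
    simp only [Fm.Sat]
    rw [Tm.val_congr (t := a) fun i hi => h i (lt_of_lt_of_le hi (le_max_left _ _)),
      Tm.val_congr (t := b) fun i hi => h i (lt_of_lt_of_le hi (le_max_right _ _))]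
  | lt a b =>
    simp only [Fm.Sat]
    rw [Tm.val_congr (t := a) fun i hi => h i (lt_of_lt_of_le hi (le_max_left _ _)),
      Tm.val_congr (t := b) fun i hi => h i (lt_of_lt_of_le hi (le_max_right _ _))]
  | mem a j =>
    simp only [Fm.Sat]
    rw [Tm.val_congr (t := a) fun i hi => h i (lt_of_lt_of_le hi (le_max_left _ _)),
      hs j (lt_of_lt_of_le (Nat.lt_succ_self j) (le_max_right _ _))]
  | neg φ ih =>
    simp only [Fm.Sat]
    rw [ih h hs]
  | and φ ψ ih1 ih2 =>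
    simp only [Fm.Sat]
    rw [ih1 (fun i hi => h i (lt_of_lt_of_le hi (le_max_left _ _)))
      (fun i hi => hs i (lt_of_lt_of_le hi (le_max_left _ _))),
      ih2 (fun i hi => h i (lt_of_lt_of_le hi (le_max_right _ _)))
      (fun i hi => hs i (lt_of_lt_of_le hi (le_max_right _ _)))]
  | all t φ ih =>
    simp only [Fm.Sat]
    rw [Tm.val_congr (t := t) fun i hi => h i (lt_of_lt_of_le hi (le_max_left _ _))]
    have h1 : ∀ x : M, φ.Sat s (cons x e) ↔ φ.Sat s' (cons x e') := fun x =>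
      ih (cons_congr x fun i hi => h i (lt_of_lt_of_le hi (le_max_right _ _)))
        (fun i hi => hs i (lt_of_lt_of_le hi (le_max_right _ _)))
    simp only [h1]

end congr

/-! ### codes of assignments -/

/-- the term for the code of the first `N` values of an assignment -/
def codeT : ℕ → (ℕ → Term) → Term
  | 0, _ => tconst 0
  | N + 1, τ => pair (τ 0) (codeT N (fun i => τ (i + 1)))

lemma nth_codeT (N : ℕ) : ∀ (τ : ℕ → Term) (i : ℕ), i < N → ∀ n,
    nth i ((codeT N τ).ev n) = (τ i).ev n := by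
  induction N with
  | zero => intro τ i hi; omega
  | succ N ih =>
    intro τ i hi n
    cases i with
    | zero => simp [codeT, nth]
    | succ i =>
      simp only [codeT, nth, ev_pair, Nat.unpair_pair]
      exact ih (fun i => τ (i + 1)) i (by omega) n

/-- the sets given by the terms `δ j` at `n` -/
def sN (δ : ℕ → Term) (n : ℕ) : ℕ → Set ℕ := fun j => {x | x ∈ dec ((δ j).ev n)}

/-- the assignment given by the terms `τ i` at `n` -/
noncomputable def eN (τ : ℕ → Term) (n : ℕ) : ℕ → ℕ := fun i => (τ i).ev n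

lemma eN_cons (σ : Term) (τ : ℕ → Term) (n : ℕ) :
    eN (cons σ τ) n = cons (σ.ev n) (eN τ n) := by
  funext i; cases i <;> rfl

lemma asg_codeT {N : ℕ} (τ : ℕ → Term) (n : ℕ) : ∀ i < N,
    asg ((codeT N τ).ev n) i = eN τ n i := fun i hi => nth_codeT N τ i hi n

lemma SN_iff {φ : Fm} (δ : ℕ → Term) (n : ℕ) {e e' : ℕ → ℕ} (h : ∀ i < φ.fv, e i = e' i) :
    SN φ ((codeT φ.fv δ).ev n) e ↔ φ.Sat (sN δ n) e' := by
  apply Fm.sat_congr h
  intro j hj
  simp only [sN, nth_codeT φ.fv δ j hj n]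

lemma SN_iff' {φ : Fm} {N : ℕ} (hN : φ.fv ≤ N) (δ : ℕ → Term) (n : ℕ) {e e' : ℕ → ℕ}
    (h : ∀ i < φ.fv, e i = e' i) :
    SN φ ((codeT N δ).ev n) e ↔ φ.Sat (sN δ n) e' := by
  apply Fm.sat_congr h
  intro j hj
  simp only [sN, nth_codeT N δ j (by omega) n]

/-- witnesses -/
lemma exists_wit (φ : Fm) (δ τ : ℕ → Term) (υ : Term) : ∃ w : Term, ∀ n,
    (∃ x, x < υ.ev n ∧ ¬ φ.Sat (sN δ n) (cons x (eN τ n))) →
      w.ev n < υ.ev n ∧ ¬ φ.Sat (sN δ n) (cons (w.ev n) (eN τ n)) := by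
  classical
  refine ⟨app (.wit φ) (pair (codeT φ.fv τ) (pair (codeT φ.fv δ) υ)), fun n hn => ?_⟩
  have hev : (app (.wit φ) (pair (codeT φ.fv τ) (pair (codeT φ.fv δ) υ))).ev n =
      witF φ ((codeT φ.fv τ).ev n) ((codeT φ.fv δ).ev n) (υ.ev n) := by
    simp [Term.ev, Op.fun]
  have hiff : ∀ x, SN φ ((codeT φ.fv δ).ev n) (cons x (asg ((codeT φ.fv τ).ev n))) ↔
      φ.Sat (sN δ n) (cons x (eN τ n)) := fun x =>
    SN_iff δ n (cons_congr x (asg_codeT τ n))
  have hex : ∃ x, x < υ.ev n ∧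
      ¬ SN φ ((codeT φ.fv δ).ev n) (cons x (asg ((codeT φ.fv τ).ev n))) := by
    obtain ⟨x, h1, h2⟩ := hn
    exact ⟨x, h1, fun h => h2 ((hiff x).1 h)⟩
  rw [hev, witF, dif_pos hex]
  have := Nat.find_spec hex
  exact ⟨this.1, fun h => this.2 ((hiff _).2 h)⟩

lemma exists_wit_pos (φ : Fm) (δ τ : ℕ → Term) (υ : Term) : ∃ w : Term, ∀ n,
    (∃ x, x < υ.ev n ∧ φ.Sat (sN δ n) (cons x (eN τ n))) →
      w.ev n < υ.ev n ∧ φ.Sat (sN δ n) (cons (w.ev n) (eN τ n)) := by
  obtain ⟨w, hw⟩ := exists_wit φ.neg δ τ υ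
  refine ⟨w, fun n hn => ?_⟩
  have := hw n (by
    obtain ⟨x, h1, h2⟩ := hn
    exact ⟨x, h1, fun h => h h2⟩)
  exact ⟨this.1, not_not.1 this.2⟩

/-! ### the model -/

/-- the first order part -/
noncomputable def MM : Subsemiring (Germ (hyperfilter ℕ : Filter ℕ) ℕ) where
  carrier := {x | ∃ t : Term, InM t ∧ ((t.ev : ℕ → ℕ) : Germ (hyperfilter ℕ : Filter ℕ) ℕ) = x}
  mul_mem' := by
    rintro _ _ ⟨s, hs, rfl⟩ ⟨t, ht, rfl⟩
    refine ⟨tmul s t, hs.mul ht, ?_⟩
    exact Germ.coe_eq.2 (Eventually.of_forall fun n => by simp)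
  one_mem' := ⟨tconst 1, inM_const 1, rfl⟩
  add_mem' := by
    rintro _ _ ⟨s, hs, rfl⟩ ⟨t, ht, rfl⟩
    refine ⟨tadd s t, hs.add ht, ?_⟩
    exact Germ.coe_eq.2 (Eventually.of_forall fun n => by simp)
  zero_mem' := ⟨tconst 0, inM_const 0, rfl⟩

/-- the element given by a term -/
noncomputable def mk (t : Term) (ht : InM t) : MM := ⟨((t.ev : ℕ → ℕ) : Germ _ ℕ), t, ht, rfl⟩

lemma exists_mk (x : MM) : ∃ t, ∃ ht : InM t, x = mk t ht := by
  obtain ⟨_, t, ht, rfl⟩ := x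
  exact ⟨t, ht, rfl⟩

lemma mk_le {s t : Term} {hs : InM s} {ht : InM t} :
    mk s hs ≤ mk t ht ↔ ∀ᶠ n in hyp, s.ev n ≤ t.ev n := by
  rw [← Subtype.coe_le_coe]
  exact Germ.coe_le

lemma mk_lt {s t : Term} {hs : InM s} {ht : InM t} :
    mk s hs < mk t ht ↔ ∀ᶠ n in hyp, s.ev n < t.ev n := by
  rw [← Subtype.coe_lt_coe]
  exact Germ.coe_lt

lemma mk_eq {s t : Term} {hs : InM s} {ht : InM t} :
    mk s hs = mk t ht ↔ ∀ᶠ n in hyp, s.ev n = t.ev n := by
  rw [Subtype.ext_iff]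
  exact Germ.coe_eq

lemma mk_add {s t : Term} (hs : InM s) (ht : InM t) :
    mk s hs + mk t ht = mk (tadd s t) (hs.add ht) := by
  apply Subtype.ext
  exact Germ.coe_eq.2 (Eventually.of_forall fun n => by simp)

lemma mk_mul {s t : Term} (hs : InM s) (ht : InM t) :
    mk s hs * mk t ht = mk (tmul s t) (hs.mul ht) := by
  apply Subtype.ext
  exact Germ.coe_eq.2 (Eventually.of_forall fun n => by simp)

lemma mk_zero : (0 : MM) = mk (tconst 0) (inM_const 0) := rfl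
lemma mk_one : (1 : MM) = mk (tconst 1) (inM_const 1) := rfl

/-- the set given by a term -/
def XS (c : Term) : Set MM :=
  {x | ∃ t : Term, InM t ∧ ((t.ev : ℕ → ℕ) : Germ _ ℕ) = x.1 ∧ ∀ᶠ n in hyp, t.ev n ∈ dec (c.ev n)}

lemma mem_XS {c t : Term} {ht : InM t} : mk t ht ∈ XS c ↔ ∀ᶠ n in hyp, t.ev n ∈ dec (c.ev n) := by
  constructor
  · rintro ⟨t', _, h1, h2⟩
    have h3 : ∀ᶠ n in hyp, t'.ev n = t.ev n := Germ.coe_eq.1 h1
    filter_upwards [h2, h3] with n h4 h5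
    rwa [← h5]
  · intro h
    exact ⟨t, ht, rfl, h⟩

/-- the second order part -/
def XX : Set (Set MM) := Set.range XS

/-- the term for the value of a term -/
def tmT (τ : ℕ → Term) : Tm → Term
  | .var i => τ i
  | .zero => tconst 0
  | .one => tconst 1
  | .add s t => tadd (tmT τ s) (tmT τ t)
  | .mul s t => tmul (tmT τ s) (tmT τ t)

lemma tmT_ev (τ : ℕ → Term) (t : Tm) (n : ℕ) : (tmT τ t).ev n = t.val (eN τ n) := by
  induction t with
  | var i => rfl
  | zero => rfl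
  | one => rfl
  | add a b iha ihb => rw [tmT, ev_add, iha, ihb]; rfl
  | mul a b iha ihb => rw [tmT, ev_mul, iha, ihb]; rfl

lemma tmT_inM {τ : ℕ → Term} (hτ : ∀ i, InM (τ i)) (t : Tm) : InM (tmT τ t) := by
  induction t with
  | var i => exact hτ i
  | zero => exact inM_const 0
  | one => exact inM_const 1
  | add a b iha ihb => exact iha.add ihb
  | mul a b iha ihb => exact iha.mul ihb

lemma val_mk {τ : ℕ → Term} (hτ : ∀ i, InM (τ i)) (t : Tm) :
    t.val (fun i => mk (τ i) (hτ i)) = mk (tmT τ t) (tmT_inM hτ t) := by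
  induction t with
  | var i => rfl
  | zero => rfl
  | one => rfl
  | add a b iha ihb => rw [Tm.val, iha, ihb, mk_add]; rfl
  | mul a b iha ihb => rw [Tm.val, iha, ihb, mk_mul]; rfl

lemma cons_inM {σ : Term} {τ : ℕ → Term} (hσ : InM σ) (hτ : ∀ i, InM (τ i)) :
    ∀ i, InM (cons σ τ i) := by
  intro i; cases i
  · exact hσ
  · exact hτ _

lemma cons_mk {σ : Term} {τ : ℕ → Term} (hσ : InM σ) (hτ : ∀ i, InM (τ i)) :
    cons (mk σ hσ) (fun i => mk (τ i) (hτ i)) = fun i => mk (cons σ τ i) (cons_inM hσ hτ i) := by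
  funext i; cases i <;> rfl

/-- The transfer theorem. -/
theorem los (φ : Fm) (δ : ℕ → Term) : ∀ (τ : ℕ → Term) (hτ : ∀ i, InM (τ i)),
    φ.Sat (fun j => XS (δ j)) (fun i => mk (τ i) (hτ i)) ↔
      ∀ᶠ n in hyp, φ.Sat (sN δ n) (eN τ n) := by
  induction φ with
  | eq a b =>
    intro τ hτ
    simp only [Fm.Sat]
    rw [val_mk, val_mk, mk_eq]
    simp only [tmT_ev]
  | lt a b =>
    intro τ hτ
    simp only [Fm.Sat]
    rw [val_mk, val_mk, mk_lt]
    simp only [tmT_ev]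
  | mem a j =>
    intro τ hτ
    simp only [Fm.Sat]
    rw [val_mk, mem_XS]
    simp only [tmT_ev]
    rfl
  | neg φ ih =>
    intro τ hτ
    simp only [Fm.Sat]
    rw [ih τ hτ, ae_not]
  | and φ ψ ih1 ih2 =>
    intro τ hτ
    simp only [Fm.Sat]
    rw [ih1 τ hτ, ih2 τ hτ, eventually_and]
  | all t φ ih =>
    intro τ hτ
    simp only [Fm.Sat]
    rw [val_mk]
    constructor
    · intro h
      by_contra hcon
      rw [ae_not] at hcon
      obtain ⟨w, hw⟩ := exists_wit φ δ τ (tmT τ t)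
      have h1 : ∀ᶠ n in hyp, w.ev n < (tmT τ t).ev n ∧
          ¬ φ.Sat (sN δ n) (cons (w.ev n) (eN τ n)) := by
        filter_upwards [hcon] with n hn
        apply hw n
        push Not at hn
        obtain ⟨x, h2, h3⟩ := hn
        exact ⟨x, by rw [tmT_ev]; exact h2, h3⟩
      have hwM : InM w := (tmT_inM hτ t).of_le (h1.mono fun n hn => hn.1.le)
      have h2 := h (mk w hwM) (mk_lt.2 (h1.mono fun n hn => hn.1))
      rw [cons_mk hwM hτ, ih] at h2
      apply not_ae_false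
      filter_upwards [h1, h2] with n h3 h4
      rw [eN_cons] at h4
      exact h3.2 h4
    · intro h x hx
      obtain ⟨σ, hσ, rfl⟩ := exists_mk x
      rw [mk_lt] at hx
      rw [cons_mk hσ hτ, ih]
      filter_upwards [h, hx] with n h1 h2
      rw [eN_cons]
      apply h1
      rwa [tmT_ev] at h2

lemma los1 (φ : Fm) (δ : ℕ → Term) {σ : Term} {τ : ℕ → Term} (hσ : InM σ) (hτ : ∀ i, InM (τ i)) :
    φ.Sat (fun j => XS (δ j)) (cons (mk σ hσ) (fun i => mk (τ i) (hτ i))) ↔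
      ∀ᶠ n in hyp, φ.Sat (sN δ n) (cons (σ.ev n) (eN τ n)) := by
  rw [cons_mk hσ hτ, los]
  simp only [eN_cons]

lemma los2 (φ : Fm) (δ : ℕ → Term) {ρ σ : Term} {τ : ℕ → Term} (hρ : InM ρ) (hσ : InM σ)
    (hτ : ∀ i, InM (τ i)) :
    φ.Sat (fun j => XS (δ j)) (cons (mk ρ hρ) (cons (mk σ hσ) (fun i => mk (τ i) (hτ i)))) ↔
      ∀ᶠ n in hyp, φ.Sat (sN δ n) (cons (ρ.ev n) (cons (σ.ev n) (eN τ n))) := by
  rw [cons_mk hσ hτ, los1 φ δ hρ (cons_inM hσ hτ)]
  simp only [eN_cons]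

lemma los4 (φ : Fm) (δ : ℕ → Term) {v u ρ σ : Term} {τ : ℕ → Term} (hv : InM v) (hu : InM u)
    (hρ : InM ρ) (hσ : InM σ) (hτ : ∀ i, InM (τ i)) :
    φ.Sat (fun j => XS (δ j)) (cons (mk v hv) (cons (mk u hu) (cons (mk ρ hρ)
      (cons (mk σ hσ) (fun i => mk (τ i) (hτ i)))))) ↔
      ∀ᶠ n in hyp, φ.Sat (sN δ n) (cons (v.ev n) (cons (u.ev n) (cons (ρ.ev n)
        (cons (σ.ev n) (eN τ n))))) := by
  rw [cons_mk hσ hτ, cons_mk hρ (cons_inM hσ hτ), los2 φ δ hv hu (cons_inM hρ (cons_inM hσ hτ))]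
  simp only [eN_cons]

/-- all assignments are given by terms -/
lemma exists_terms (e : ℕ → MM) : ∃ τ : ℕ → Term, ∃ hτ : ∀ i, InM (τ i),
    e = fun i => mk (τ i) (hτ i) := by
  have h : ∀ i, ∃ t, ∃ ht : InM t, e i = mk t ht := fun i => exists_mk (e i)
  choose τ hτ h1 using h
  exact ⟨τ, hτ, funext h1⟩

lemma exists_sets {s : ℕ → Set MM} (hs : ∀ j, s j ∈ XX) : ∃ δ : ℕ → Term,
    s = fun j => XS (δ j) := by
  choose δ hδ using hs
  exact ⟨δ, (funext hδ).symm⟩

end BRT
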