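import Mathlib
import Pool.Agent.Lib.MP_14f891_lc.Model

/-! Bounded quantifiers, discreteness, `Δ⁰₁`-comprehension and `Σ⁰₁`-induction in the model
(MP_14f891_lc). -/

namespace BRT

open Filter Term

lemma mm_discrete : Discrete MM where
  nonneg := by
    intro x
    obtain ⟨s, hs, rfl⟩ := exists_mk x
    rw [mk_zero, mk_le]
    exact Eventually.of_forall fun n => by rw [ev_const]; exact Nat.zero_le _
  sub := by
    intro x y h
    obtain ⟨s, hs, rfl⟩ := exists_mk x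
    obtain ⟨t, ht, rfl⟩ := exists_mk y
    rw [mk_le] at h
    refine ⟨mk (tsub t s) (ht.of_le (Eventually.of_forall fun n => by
      rw [ev_sub]; exact Nat.sub_le _ _)), ?_⟩
    rw [mk_add, mk_eq]
    filter_upwards [h] with n hn
    rw [ev_add, ev_sub]; omega
  succ_le := by
    intro x y h
    obtain ⟨s, hs, rfl⟩ := exists_mk x
    obtain ⟨t, ht, rfl⟩ := exists_mk y
    rw [mk_lt] at h
    rw [mk_one, mk_add, mk_le]
    filter_upwards [h] with n hn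
    rw [ev_add, ev_const]; omega

lemma los_all (φ : Fm) (δ : ℕ → Term) {ρ : Term} {τ : ℕ → Term} (hρ : InM ρ)
    (hτ : ∀ i, InM (τ i)) :
    (∀ x, x < mk ρ hρ → φ.Sat (fun j => XS (δ j)) (cons x (fun i => mk (τ i) (hτ i)))) ↔
      ∀ᶠ n in hyp, ∀ x, x < ρ.ev n → φ.Sat (sN δ n) (cons x (eN τ n)) := by
  constructor
  · intro h
    by_contra hcon
    rw [ae_not] at hcon
    obtain ⟨w, hw⟩ := exists_wit φ δ τ ρ
    have h1 : ∀ᶠ n in hyp, w.ev n < ρ.ev n ∧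
        ¬ φ.Sat (sN δ n) (cons (w.ev n) (eN τ n)) := by
      filter_upwards [hcon] with n hn
      apply hw n
      push Not at hn
      exact hn
    have hwM : InM w := hρ.of_le (h1.mono fun n hn => hn.1.le)
    have h2 := h (mk w hwM) (mk_lt.2 (h1.mono fun n hn => hn.1))
    rw [los1 φ δ hwM hτ] at h2
    apply not_ae_false
    filter_upwards [h1, h2] with n h3 h4
    exact h3.2 h4
  · intro h x hx
    obtain ⟨σ, hσ, rfl⟩ := exists_mk x
    rw [mk_lt] at hx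
    rw [los1 φ δ hσ hτ]
    filter_upwards [h, hx] with n h1 h2
    exact h1 _ h2

lemma los_ex (φ : Fm) (δ : ℕ → Term) {ρ : Term} {τ : ℕ → Term} (hρ : InM ρ)
    (hτ : ∀ i, InM (τ i)) :
    (∃ x, x < mk ρ hρ ∧ φ.Sat (fun j => XS (δ j)) (cons x (fun i => mk (τ i) (hτ i)))) ↔
      ∀ᶠ n in hyp, ∃ x, x < ρ.ev n ∧ φ.Sat (sN δ n) (cons x (eN τ n)) := by
  have h := los_all φ.neg δ hρ hτ
  simp only [Fm.Sat] at h
  rw [← not_iff_not]
  rw [ae_not]
  push Not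
  rw [h]

lemma los_ex2 (φ : Fm) (δ : ℕ → Term) {ρ σ : Term} {τ : ℕ → Term} (hρ : InM ρ) (hσ : InM σ)
    (hτ : ∀ i, InM (τ i)) :
    (∃ x, x < mk ρ hρ ∧ φ.Sat (fun j => XS (δ j))
      (cons x (cons (mk σ hσ) (fun i => mk (τ i) (hτ i))))) ↔
      ∀ᶠ n in hyp, ∃ x, x < ρ.ev n ∧ φ.Sat (sN δ n) (cons x (cons (σ.ev n) (eN τ n))) := by
  rw [cons_mk hσ hτ, los_ex φ δ hρ (cons_inM hσ hτ)]
  simp only [eN_cons]

lemma los_all2 (φ : Fm) (δ : ℕ → Term) {ρ σ : Term} {τ : ℕ → Term} (hρ : InM ρ) (hσ : InM σ)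
    (hτ : ∀ i, InM (τ i)) :
    (∀ x, x < mk ρ hρ → φ.Sat (fun j => XS (δ j))
      (cons x (cons (mk σ hσ) (fun i => mk (τ i) (hτ i))))) ↔
      ∀ᶠ n in hyp, ∀ x, x < ρ.ev n → φ.Sat (sN δ n) (cons x (cons (σ.ev n) (eN τ n))) := by
  rw [cons_mk hσ hτ, los_all φ δ hρ (cons_inM hσ hτ)]
  simp only [eN_cons]

lemma xx_nonempty : XX.Nonempty := ⟨_, Term.id, rfl⟩

theorem mm_ca : DeltaOneCA XX := by
  classical
  intro φ ψ e s hs h
  obtain ⟨τ, hτ, rfl⟩ := exists_terms e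
  obtain ⟨δ, rfl⟩ := exists_sets hs
  set N := max φ.fv ψ.fv with hN
  let C : Term := app (.dca φ ψ) (pair (codeT N τ) (pair (codeT N δ) (app .top Term.id)))
  have hC : ∀ n, C.ev n = dcaF φ ψ ((codeT N τ).ev n) ((codeT N δ).ev n) (bN n) := by
    intro n; simp [C, Term.ev, Op.fun]
  have hphi : ∀ (φ' : Fm) (_ : φ'.fv ≤ N) n y x,
      SN φ' ((codeT N δ).ev n) (cons y (cons x (asg ((codeT N τ).ev n)))) ↔
      φ'.Sat (sN δ n) (cons y (cons x (eN τ n))) := by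
    intro φ' hφ' n y x
    apply SN_iff' hφ' δ n
    intro i hi
    exact cons_congr y (cons_congr x (asg_codeT τ n)) i (by omega)
  have hmem : ∀ n x, x ∈ dec (C.ev n) ↔ x < bN n ∧ ∃ y, y < bN n ∧
      φ.Sat (sN δ n) (cons y (cons x (eN τ n))) ∧
      ∀ z, z < y → ψ.Sat (sN δ n) (cons z (cons x (eN τ n))) := by
    intro n x
    rw [hC, dcaF, dec_enc, Finset.mem_filter, Finset.mem_range]
    simp only [hphi φ (le_max_left _ _), hphi ψ (le_max_right _ _)]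
  refine ⟨C, ?_⟩
  ext x
  obtain ⟨σ, hσ, rfl⟩ := exists_mk x
  rw [mem_XS]
  change _ ↔ ∃ y, φ.Sat (fun j => XS (δ j)) (cons y (cons (mk σ hσ) (fun i => mk (τ i) (hτ i))))
  constructor
  · intro h1
    by_contra hcon
    have h2 : ¬ ∀ y, ψ.Sat (fun j => XS (δ j)) (cons y (cons (mk σ hσ)
        (fun i => mk (τ i) (hτ i)))) := fun h3 => hcon ((h _).2 h3)
    push Not at h2
    obtain ⟨z, hz⟩ := h2
    obtain ⟨ζ, hζ, rfl⟩ := exists_mk z
    rw [los2 ψ δ hζ hσ hτ, ae_not] at hz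
    apply hcon
    have h3 : ∃ y, y < mk (tadd ζ (tconst 1)) hζ.succ ∧ φ.Sat (fun j => XS (δ j))
        (cons y (cons (mk σ hσ) (fun i => mk (τ i) (hτ i)))) := by
      rw [los_ex2 φ δ hζ.succ hσ hτ]
      filter_upwards [h1, hz] with n h4 h5
      rw [hmem] at h4
      obtain ⟨-, y, -, h6, h7⟩ := h4
      refine ⟨y, ?_, h6⟩
      rw [ev_add, ev_const]
      by_contra h8
      exact h5 (h7 _ (by omega))
    obtain ⟨y, -, hy⟩ := h3
    exact ⟨y, hy⟩
  · intro h1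
    have h2 := (h _).1 h1
    obtain ⟨y, hy⟩ := h1
    obtain ⟨ρ, hρ, rfl⟩ := exists_mk y
    rw [los2 φ δ hρ hσ hτ] at hy
    have h3 := (los_all2 ψ δ hρ hσ hτ).1 (fun z _ => h2 z)
    filter_upwards [hy, h3, hσ.lt_top, hρ.lt_top] with n h4 h5 h6 h7
    rw [hmem]
    exact ⟨h6, _, h7, h4, h5⟩

theorem mm_ind : SigmaOneInd XX := by
  classical
  intro φ e s hs h0 hstep x
  obtain ⟨τ, hτ, rfl⟩ := exists_terms e
  obtain ⟨δ, rfl⟩ := exists_sets hs
  obtain ⟨σ, hσ, rfl⟩ := exists_mk x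
  by_contra hcon
  let R : Term := app (.ind φ) (pair (codeT φ.fv τ) (pair (codeT φ.fv δ)
    (pair σ (app .top Term.id))))
  have hR : ∀ n, R.ev n = indF φ ((codeT φ.fv τ).ev n) ((codeT φ.fv δ).ev n) (σ.ev n)
      (bN n) := by
    intro n; simp [R, Term.ev, Op.fun]
  have hphi : ∀ n y x,
      SN φ ((codeT φ.fv δ).ev n) (cons y (cons x (asg ((codeT φ.fv τ).ev n)))) ↔
      φ.Sat (sN δ n) (cons y (cons x (eN τ n))) := by
    intro n y x
    apply SN_iff δ n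
    intro i hi
    exact cons_congr y (cons_congr x (asg_codeT τ n)) i hi
  have hmem : ∀ n w i, Nat.pair w i ∈ dec (R.ev n) ↔ w < bN n ∧ i < σ.ev n + 1 ∧
      (¬ ∃ y, y < w ∧ φ.Sat (sN δ n) (cons y (cons i (eN τ n)))) ∧
      ∀ i' < i, ∃ y, y < w ∧ φ.Sat (sN δ n) (cons y (cons i' (eN τ n))) := by
    intro n w i
    rw [hR, indF, mem_relCode]
    simp only [hphi]
  have hno : ∀ w : Term, InM w → ∀ᶠ n in hyp,
      ¬ ∃ y, y < w.ev n ∧ φ.Sat (sN δ n) (cons y (cons (σ.ev n) (eN τ n))) := by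
    intro w hw
    rw [← ae_not, ← los_ex2 φ δ hw hσ hτ]
    rintro ⟨y, -, hy⟩
    exact hcon ⟨y, hy⟩
  obtain ⟨c, hc, i₀, hi₀⟩ := reg R (tadd σ (tconst 1)) hσ.succ (by
    intro w hw
    filter_upwards [hno w hw, hw.lt_top] with n h1 h2
    have hex : ∃ i, ¬ ∃ y, y < w.ev n ∧ φ.Sat (sN δ n) (cons y (cons i (eN τ n))) := ⟨_, h1⟩
    refine ⟨Nat.find hex, ?_, ?_⟩
    · rw [ev_add, ev_const]
      exact Nat.lt_succ_of_le (Nat.find_min' hex h1)
    · rw [hmem]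
      refine ⟨h2, Nat.lt_succ_of_le (Nat.find_min' hex h1), Nat.find_spec hex, ?_⟩
      intro i' hi'
      exact not_not.1 (Nat.find_min hex hi'))
  have hcM : InM c := hσ.succ.of_le (hc.mono fun n hn => hn.le)
  have hcno : ¬ ∃ y, φ.Sat (fun j => XS (δ j)) (cons y (cons (mk c hcM)
      (fun i => mk (τ i) (hτ i)))) := by
    rintro ⟨y, hy⟩
    obtain ⟨ρ, hρ, rfl⟩ := exists_mk y
    rw [los2 φ δ hρ hcM hτ] at hy
    obtain ⟨i1, hi1⟩ := hρ.ge
    apply not_ae_false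
    filter_upwards [hy, hi1 (max i₀ i1) (le_max_right _ _), hi₀ (max i₀ i1) (le_max_left _ _)]
      with n h1 h2 h3
    rw [hmem] at h3
    exact h3.2.2.1 ⟨_, h2, h1⟩
  by_cases hc0 : ∀ᶠ n in hyp, c.ev n = 0
  · have : mk c hcM = 0 := by
      rw [mk_zero, mk_eq]
      filter_upwards [hc0] with n hn
      rw [hn, ev_const]
    rw [this] at hcno
    exact hcno h0
  · rw [ae_not] at hc0
    let d : Term := tsub c (tconst 1)
    have hcd : ∀ᶠ n in hyp, c.ev n = d.ev n + 1 := by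
      filter_upwards [hc0] with n hn
      simp only [d, ev_sub, ev_const]
      omega
    have hdM : InM d := hcM.of_le (by filter_upwards [hcd] with n hn; omega)
    have h1 : ∃ y, y < mk (mm i₀) (inM_mm i₀) ∧ φ.Sat (fun j => XS (δ j))
        (cons y (cons (mk d hdM) (fun i => mk (τ i) (hτ i)))) := by
      rw [los_ex2 φ δ (inM_mm i₀) hdM hτ]
      filter_upwards [hi₀ i₀ le_rfl, hcd] with n h2 h3
      rw [hmem] at h2
      exact h2.2.2.2 _ (by omega)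
    obtain ⟨y, -, hy⟩ := h1
    have h2 := hstep _ ⟨y, hy⟩
    have h3 : mk d hdM + 1 = mk c hcM := by
      rw [mk_one, mk_add, mk_eq]
      filter_upwards [hcd] with n hn
      rw [ev_add, ev_const, hn]
    rw [h3] at h2
    exact hcno h2

theorem mm_rca0 : RCA0 XX := ⟨mm_discrete, xx_nonempty, mm_ind, mm_ca⟩

end BRT
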