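import Mathlib
import Pool.Agent.Lib.MP_14f891_lc.Axioms

/-! `Σ⁰₂`-collection in the model (MP_14f891_lc). -/

namespace BRT

open Filter Term

/-- the matrix -/
def MatS (φ : Fm) (δ τ : ℕ → Term) (n x y u w : ℕ) : Prop :=
  ∀ v, v < w → φ.Sat (sN δ n) (cons v (cons u (cons y (cons x (eN τ n)))))

lemma MatS_mono {φ : Fm} {δ τ : ℕ → Term} {n x y u w w' : ℕ} (h : w' ≤ w)
    (h1 : MatS φ δ τ n x y u w) : MatS φ δ τ n x y u w' := fun v hv => h1 v (by omega)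

lemma M2_iff (φ : Fm) (δ τ : ℕ → Term) (n x y u w : ℕ) :
    M2 φ ((codeT φ.fv τ).ev n) ((codeT φ.fv δ).ev n) x y u w ↔ MatS φ δ τ n x y u w := by
  unfold M2 MatS
  have : ∀ v, SN φ ((codeT φ.fv δ).ev n)
      (cons v (cons u (cons y (cons x (asg ((codeT φ.fv τ).ev n)))))) ↔
      φ.Sat (sN δ n) (cons v (cons u (cons y (cons x (eN τ n))))) := by
    intro v
    apply SN_iff δ n
    intro i hi
    exact cons_congr v (cons_congr u (cons_congr y (cons_congr x (asg_codeT τ n)))) i hi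
  simp only [this]

lemma los_mat (φ : Fm) (δ : ℕ → Term) {w u ρ σ : Term} {τ : ℕ → Term} (hw : InM w) (hu : InM u)
    (hρ : InM ρ) (hσ : InM σ) (hτ : ∀ i, InM (τ i)) :
    (∀ v, v < mk w hw → φ.Sat (fun j => XS (δ j)) (cons v (cons (mk u hu) (cons (mk ρ hρ)
      (cons (mk σ hσ) (fun i => mk (τ i) (hτ i))))))) ↔
      ∀ᶠ n in hyp, MatS φ δ τ n (σ.ev n) (ρ.ev n) (u.ev n) (w.ev n) := by
  unfold MatS
  rw [cons_mk hσ hτ, cons_mk hρ (cons_inM hσ hτ), cons_mk hu (cons_inM hρ (cons_inM hσ hτ)),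
    los_all φ δ hw (cons_inM hu (cons_inM hρ (cons_inM hσ hτ)))]
  simp only [eN_cons]

theorem mm_coll : SigmaTwoColl XX := by
  classical
  intro φ e s hs a h
  obtain ⟨τ, hτ, rfl⟩ := exists_terms e
  obtain ⟨δ, rfl⟩ := exists_sets hs
  obtain ⟨α, hα, rfl⟩ := exists_mk a
  by_cases ha0 : ∀ᶠ n in hyp, α.ev n = 0
  · refine ⟨0, fun x hx => ?_⟩
    exfalso
    obtain ⟨σ, hσ, rfl⟩ := exists_mk x
    rw [mk_lt] at hx
    apply not_ae_false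
    filter_upwards [hx, ha0] with n h1 h2
    omega
  rw [ae_not] at ha0
  let R : Term := app (.bsR φ) (pair (codeT φ.fv τ) (pair (codeT φ.fv δ)
    (pair α (app .top Term.id))))
  let Z : ℕ → ℕ → ℕ → ℕ := fun n w x =>
    zeta φ ((codeT φ.fv τ).ev n) ((codeT φ.fv δ).ev n) w x
  have hZ : ∀ n w x, Z n w x = sInf {z | ∃ y, y < z ∧ ∃ u, u < z ∧ MatS φ δ τ n x y u w} := by
    intro n w x
    simp only [Z, zeta, M2_iff]
  have hmem : ∀ n w x, Nat.pair w x ∈ dec (R.ev n) ↔ w < bN n ∧ x < α.ev n ∧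
      ∀ x', x' < α.ev n → Z n w x' ≤ Z n w x := by
    intro n w x
    have hR : R.ev n = bsRF φ ((codeT φ.fv τ).ev n) ((codeT φ.fv δ).ev n) (α.ev n)
      (bN n) := by
      simp [R, Term.ev, Op.fun]
    rw [hR, bsRF, mem_relCode]
  obtain ⟨c, hc, i₀, hi₀⟩ := reg R α hα (by
    intro w hw
    filter_upwards [ha0, hw.lt_top] with n h1 h2
    obtain ⟨x, hx, hx2⟩ := Finset.exists_max_image (Finset.range (α.ev n)) (Z n (w.ev n))
      ⟨0, Finset.mem_range.2 (Nat.pos_of_ne_zero h1)⟩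
    refine ⟨x, Finset.mem_range.1 hx, ?_⟩
    rw [hmem]
    exact ⟨h2, Finset.mem_range.1 hx, fun x' hx' => hx2 x' (Finset.mem_range.2 hx')⟩)
  have hcM : InM c := hα.of_le (hc.mono fun n hn => hn.le)
  obtain ⟨y, u, hyu⟩ := h _ (mk_lt.2 hc : mk c hcM < mk α hα)
  obtain ⟨ρ, hρ, rfl⟩ := exists_mk y
  obtain ⟨υ, hυ, rfl⟩ := exists_mk u
  let ζ : Term := tadd (tadd ρ υ) (tconst 1)
  have hζ : InM ζ := (hρ.add hυ).succ
  have hζev : ∀ n, ζ.ev n = ρ.ev n + υ.ev n + 1 := by intro n; simp [ζ]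
  have hex : ∀ σ : Term, InM σ → (∀ᶠ n in hyp, σ.ev n < α.ev n) → ∀ j, i₀ ≤ j →
      ∀ᶠ n in hyp, ∃ y, y < ζ.ev n ∧ ∃ u, u < ζ.ev n ∧
        MatS φ δ τ n (σ.ev n) y u ((mm j).ev n) := by
    intro σ hσ hσα j hj
    obtain ⟨y', u', hyu'⟩ := h _ (mk_lt.2 hσα : mk σ hσ < mk α hα)
    obtain ⟨ρ', hρ', rfl⟩ := exists_mk y'
    obtain ⟨υ', hυ', rfl⟩ := exists_mk u'
    have h1 := (los_mat φ δ (inM_mm j) hυ' hρ' hσ hτ).1 (fun v _ => hyu' v)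
    have h2 := (los_mat φ δ (inM_mm j) hυ hρ hcM hτ).1 (fun v _ => hyu v)
    filter_upwards [h1, h2, hσα, hi₀ j hj] with n h3 h4 h5 h6
    rw [hmem] at h6
    have h7 := h6.2.2 _ h5
    have h8 : Z n ((mm j).ev n) (c.ev n) ≤ ζ.ev n := by
      rw [hZ]
      exact Nat.sInf_le ⟨ρ.ev n, by rw [hζev]; omega, υ.ev n, by rw [hζev]; omega, h4⟩
    have h9 : ({z | ∃ y, y < z ∧ ∃ u, u < z ∧ MatS φ δ τ n (σ.ev n) y u ((mm j).ev n)} :
        Set ℕ).Nonempty :=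
      ⟨ρ'.ev n + υ'.ev n + 1, ρ'.ev n, by omega, υ'.ev n, by omega, h3⟩
    obtain ⟨y, hy, u, hu, h10⟩ := Nat.sInf_mem h9
    rw [← hZ] at hy hu
    exact ⟨y, by omega, u, by omega, h10⟩
  refine ⟨mk ζ hζ, fun x hx => ?_⟩
  obtain ⟨σ, hσ, rfl⟩ := exists_mk x
  rw [mk_lt] at hx
  let W : Term := app (.bsW φ) (pair (codeT φ.fv τ) (pair (codeT φ.fv δ)
    (pair ζ (pair σ (app .top Term.id)))))
  have hW : ∀ n, W.ev n = bsWF φ ((codeT φ.fv τ).ev n) ((codeT φ.fv δ).ev n) (ζ.ev n)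
      (σ.ev n) (bN n) := by
    intro n; simp [W, Term.ev, Op.fun]
  let gw : ℕ → ℕ := fun n => Nat.findGreatest (fun w => ∃ y, y < ζ.ev n ∧ ∃ u, u < ζ.ev n ∧
    MatS φ δ τ n (σ.ev n) y u w) (bN n)
  have key : ∀ᶠ n in hyp, p1 (W.ev n) < ζ.ev n ∧ p2 (W.ev n) < ζ.ev n ∧
      MatS φ δ τ n (σ.ev n) (p1 (W.ev n)) (p2 (W.ev n)) (gw n) := by
    filter_upwards [hex σ hσ hx i₀ le_rfl, (inM_mm i₀).lt_top] with n h1 h2
    have h3 : ∃ y, y < ζ.ev n ∧ ∃ u, u < ζ.ev n ∧ MatS φ δ τ n (σ.ev n) y u (gw n) :=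
      Nat.findGreatest_spec (P := fun w => ∃ y, y < ζ.ev n ∧ ∃ u, u < ζ.ev n ∧
        MatS φ δ τ n (σ.ev n) y u w) h2.le h1
    obtain ⟨y, hy, u, hu, h4⟩ := h3
    have h5 : ∃ q : ℕ × ℕ, q.1 < ζ.ev n ∧ q.2 < ζ.ev n ∧
        M2 φ ((codeT φ.fv τ).ev n) ((codeT φ.fv δ).ev n) (σ.ev n) q.1 q.2
        (Nat.findGreatest (fun w => ∃ y, y < ζ.ev n ∧ ∃ u, u < ζ.ev n ∧
          M2 φ ((codeT φ.fv τ).ev n) ((codeT φ.fv δ).ev n) (σ.ev n) y u w) (bN n)) := by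
      simp only [M2_iff]
      exact ⟨(y, u), hy, hu, h4⟩
    obtain ⟨q, hq, h6⟩ : ∃ q : ℕ × ℕ, W.ev n = Nat.pair q.1 q.2 ∧ q.1 < ζ.ev n ∧
        q.2 < ζ.ev n ∧ M2 φ ((codeT φ.fv τ).ev n) ((codeT φ.fv δ).ev n) (σ.ev n) q.1 q.2
        (Nat.findGreatest (fun w => ∃ y, y < ζ.ev n ∧ ∃ u, u < ζ.ev n ∧
          M2 φ ((codeT φ.fv τ).ev n) ((codeT φ.fv δ).ev n) (σ.ev n) y u w) (bN n)) :=
      ⟨h5.choose, by rw [hW, bsWF, dif_pos h5], h5.choose_spec⟩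
    rw [hq, p1_pair, p2_pair]
    refine ⟨h6.1, h6.2.1, ?_⟩
    have h8 := (M2_iff _ _ _ _ _ _ _ _).1 h6.2.2
    have h9 : Nat.findGreatest (fun w => ∃ y, y < ζ.ev n ∧ ∃ u, u < ζ.ev n ∧
          M2 φ ((codeT φ.fv τ).ev n) ((codeT φ.fv δ).ev n) (σ.ev n) y u w) (bN n) = gw n := by
      simp only [gw, M2_iff]
    rw [h9] at h8
    exact h8
  have hgw : ∀ j, i₀ ≤ j → ∀ᶠ n in hyp, (mm j).ev n ≤ gw n := by
    intro j hj
    filter_upwards [hex σ hσ hx j hj, (inM_mm j).lt_top] with n h1 h2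
    exact Nat.le_findGreatest h2.le h1
  let Y : Term := app .unp1 W
  let U : Term := app .unp2 W
  have hYev : ∀ n, Y.ev n = p1 (W.ev n) := fun n => rfl
  have hUev : ∀ n, U.ev n = p2 (W.ev n) := fun n => rfl
  have hY : InM Y := hζ.of_le (key.mono fun n hn => hn.1.le)
  have hU : InM U := hζ.of_le (key.mono fun n hn => hn.2.1.le)
  refine ⟨mk Y hY, mk_lt.2 (key.mono fun n hn => hn.1), mk U hU, fun v => ?_⟩
  obtain ⟨ν, hν, rfl⟩ := exists_mk v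
  rw [los4 φ δ hν hU hY hσ hτ]
  obtain ⟨i1, hi1⟩ := hν.ge
  filter_upwards [key, hgw (max i₀ i1) (le_max_left _ _), hi1 (max i₀ i1) (le_max_right _ _)]
    with n h1 h2 h3
  exact h1.2.2 _ (by omega)

end BRT
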