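import Mathlib
import Pool.Agent.Lib.MP_14f891_lc.Axioms

/-! Weak König's lemma in the model (MP_14f891_lc). -/

namespace BRT

open Filter Term

lemma coprime_aux {k i j : ℕ} (hi : i < k) (hj : j < k) (hij : i ≠ j) :
    Nat.Coprime (k.factorial * (i + 1) + 1) (k.factorial * (j + 1) + 1) := by
  wlog h : i < j generalizing i j
  · exact (this hj hi (Ne.symm hij) (by omega)).symm
  by_contra hc
  obtain ⟨p, hp, h1, h2⟩ := Nat.Prime.not_coprime_iff_dvd.1 hc
  have h3 : p ∣ k.factorial * (j - i) := by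
    obtain ⟨d, rfl⟩ := Nat.exists_eq_add_of_lt h
    have h4 : k.factorial * (i + d + 1 + 1) + 1 =
        (k.factorial * (i + 1) + 1) + k.factorial * (d + 1) := by ring
    rw [h4] at h2
    have h5 : i + d + 1 - i = d + 1 := by omega
    rw [h5]
    exact (Nat.dvd_add_right h1).1 h2
  have h4 : p ∣ k.factorial := by
    rcases (Nat.Prime.dvd_mul hp).1 h3 with h | h
    · exact h
    · exact h.trans (Nat.dvd_factorial (by omega) (by omega))
  have h5 : p ∣ 1 := (Nat.dvd_add_right (h4.mul_right _)).1 h1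
  exact hp.one_lt.ne' (Nat.dvd_one.1 h5)

lemma dvd_cnF {k S i : ℕ} (hi : i < k) :
    (k.factorial * (i + 1) + 1) ∣ cnF k S ↔ i ∈ dec S := by
  unfold cnF
  constructor
  · intro h
    by_contra hS
    have h1 : Nat.Coprime (k.factorial * (i + 1) + 1)
        (∏ i ∈ (Finset.range k).filter (fun i => i ∈ dec S), (k.factorial * (i + 1) + 1)) := by
      apply Nat.Coprime.prod_right
      intro j hj
      rw [Finset.mem_filter, Finset.mem_range] at hj
      apply coprime_aux hi hj.1
      rintro rfl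
      exact hS hj.2
    have h2 := Nat.Coprime.eq_one_of_dvd h1 h
    have h3 := Nat.factorial_pos k
    have h4 : 0 < k.factorial * (i + 1) := Nat.mul_pos h3 (Nat.succ_pos _)
    omega
  · intro h
    exact Finset.dvd_prod_of_mem (fun i => k.factorial * (i + 1) + 1)
      (Finset.mem_filter.2 ⟨Finset.mem_range.2 hi, h⟩)

lemma mk_dvd {s t : Term} {hs : InM s} {ht : InM t} :
    mk s hs ∣ mk t ht ↔ ∀ᶠ n in hyp, s.ev n ∣ t.ev n := by
  constructor
  · rintro ⟨c, hc⟩
    obtain ⟨γ, hγ, rfl⟩ := exists_mk c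
    rw [mk_mul, mk_eq] at hc
    filter_upwards [hc] with n hn
    exact ⟨_, by rw [hn, ev_mul]⟩
  · intro h
    refine ⟨mk (tdiv t s) (ht.of_le (Eventually.of_forall fun n => by
      rw [ev_div]; exact Nat.div_le_self _ _)), ?_⟩
    rw [mk_mul, mk_eq]
    filter_upwards [h] with n hn
    rw [ev_mul, ev_div, Nat.mul_div_cancel' hn]

/-- term for `pr` -/
def tpr (x y : Term) : Term := tadd (tmul (tadd x y) (tadd x y)) x

lemma ev_tpr (x y : Term) (n : ℕ) : (tpr x y).ev n = pr (x.ev n) (y.ev n) := by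
  simp [tpr, pr]

lemma InM.pr {x y : Term} (hx : InM x) (hy : InM y) : InM (tpr x y) :=
  ((hx.add hy).mul (hx.add hy)).add hx

lemma mk_pr {x y : Term} (hx : InM x) (hy : InM y) :
    BRT.pr (mk x hx) (mk y hy) = mk (tpr x y) (hx.pr hy) := by
  unfold BRT.pr
  rw [mk_add hx hy, mk_mul, mk_add]
  rfl

lemma bit_mk {m n i : Term} (hm : InM m) (hn : InM n) (hi : InM i) :
    Bit (mk m hm) (mk n hn) (mk i hi) ↔
      ∀ᶠ ω in hyp, (m.ev ω * (i.ev ω + 1) + 1) ∣ n.ev ω := by
  unfold Bit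
  rw [mk_one, mk_add hi, mk_mul, mk_add, mk_dvd]
  simp only [ev_add, ev_mul, ev_const]

/-- factorial -/
def tfact (k : Term) : Term := app (.fn .fact) (pair (tconst 0) k)
/-- product -/
def tprod (m k : Term) : Term := app (.fn .prod) (pair m k)
/-- code -/
def tcn (k S : Term) : Term := app .cn (pair k S)

lemma ev_tfact (k : Term) (n : ℕ) : (tfact k).ev n = (k.ev n).factorial := by
  simp [tfact, Term.ev, Op.fun, Fn.f]

lemma ev_tprod (m k : Term) (n : ℕ) :
    (tprod m k).ev n = ∏ j ∈ Finset.range (k.ev n), (m.ev n * (j + 1) + 1) := by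
  simp [tprod, Term.ev, Op.fun, Fn.f]

lemma ev_tcn (k S : Term) (n : ℕ) : (tcn k S).ev n = cnF (k.ev n) (S.ev n) := by
  simp [tcn, Term.ev, Op.fun]

lemma InM.fact {k : Term} (hk : InM k) : InM (tfact k) := by
  refine InM.rec .fact (p := tconst 0) hk ?_ ?_
  · apply (inM_const 1).of_le
    exact Eventually.of_forall fun n => by
      change (tfact (tconst 0)).ev n ≤ _
      rw [ev_tfact, ev_const, ev_const]; simp
  · intro t ht hft
    apply (ht.succ.mul hft).of_le
    exact Eventually.of_forall fun n => by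
      change (tfact (tadd t (tconst 1))).ev n ≤ (tmul (tadd t (tconst 1)) (tfact t)).ev n
      rw [ev_tfact, ev_mul, ev_tfact, ev_add, ev_const, Nat.factorial_succ]

lemma InM.prod {m k : Term} (hm : InM m) (hk : InM k) : InM (tprod m k) := by
  refine InM.rec .prod (p := m) hk ?_ ?_
  · apply (inM_const 1).of_le
    exact Eventually.of_forall fun n => by
      change (tprod m (tconst 0)).ev n ≤ _
      rw [ev_tprod, ev_const, ev_const]; simp
  · intro t ht hft
    apply (hft.mul ((hm.mul ht.succ).succ)).of_le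
    exact Eventually.of_forall fun n => by
      change (tprod m (tadd t (tconst 1))).ev n ≤
        (tmul (tprod m t) (tadd (tmul m (tadd t (tconst 1))) (tconst 1))).ev n
      simp only [ev_tprod, ev_mul, ev_add, ev_const]
      rw [Finset.prod_range_succ]

lemma InM.cn {k : Term} (hk : InM k) (S : Term) : InM (tcn k S) := by
  apply (hk.fact.prod hk).of_le
  refine Eventually.of_forall fun n => ?_
  rw [ev_tcn, ev_tprod, ev_tfact, cnF]
  exact Finset.prod_le_prod_of_subset_of_one_le' (Finset.filter_subset _ _)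
    (fun i _ _ => Nat.succ_le_succ (Nat.zero_le _))

theorem mm_wkl : WKL XX := by
  classical
  intro T hT htree hlong
  obtain ⟨t, rfl⟩ := hT
  let S : Term := app .path (pair t (app .top Term.id))
  have hS : ∀ n, S.ev n = pathF (t.ev n) (bN n) := by intro n; simp [S, Term.ev, Op.fun]
  have h1 : ∀ κ : Term, InM κ → ∀ᶠ n in hyp, ∃ S', ∀ k', k' ≤ κ.ev n →
      codeF k' S' ∈ dec (t.ev n) := by
    intro κ hκ
    obtain ⟨m, n', hmn⟩ := hlong (mk κ hκ)
    obtain ⟨μ, hμ, rfl⟩ := exists_mk m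
    obtain ⟨ν, hν, rfl⟩ := exists_mk n'
    let S' : Term := app .str (pair κ (pair μ ν))
    have hS' : ∀ n, S'.ev n = strF (κ.ev n) (μ.ev n) (ν.ev n) := by
      intro n; simp [S', Term.ev, Op.fun]
    by_contra hcon
    rw [ae_not] at hcon
    let κ' : Term := app .ce (pair t (pair S' κ))
    have hκ'ev : ∀ n, κ'.ev n = ceF (t.ev n) (S'.ev n) (κ.ev n) := by
      intro n; simp [κ', Term.ev, Op.fun]
    have hce : ∀ᶠ n in hyp, κ'.ev n ≤ κ.ev n ∧ codeF (κ'.ev n) (S'.ev n) ∉ dec (t.ev n) := by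
      filter_upwards [hcon] with n hn
      push Not at hn
      have h2 := hn (S'.ev n)
      rw [hκ'ev, ceF, dif_pos h2]
      exact Nat.find_spec h2
    have hκ' : InM κ' := hκ.of_le (hce.mono fun n hn => hn.1)
    have h2 := htree (mk κ hκ) (mk μ hμ) (mk ν hν) (mk κ' hκ') (mk (tfact κ') hκ'.fact)
      (mk (tcn κ' S') (hκ'.cn S')) hmn (mk_le.2 (hce.mono fun n hn => hn.1)) (by
        intro i hi
        obtain ⟨ι, hι, rfl⟩ := exists_mk i
        rw [mk_lt] at hi
        rw [bit_mk, bit_mk]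
        have h3 : ∀ᶠ n in hyp, ((tfact κ').ev n * (ι.ev n + 1) + 1 ∣ (tcn κ' S').ev n ↔
            (μ.ev n * (ι.ev n + 1) + 1) ∣ ν.ev n) := by
          filter_upwards [hi, hce] with n h3 h4
          rw [ev_tfact, ev_tcn, dvd_cnF h3, hS', strF, dec_enc, Finset.mem_filter,
            Finset.mem_range]
          constructor
          · exact fun h => h.2
          · exact fun h => ⟨by omega, h⟩
        exact eventually_congr h3)
    rw [mk_pr, mk_pr, mem_XS] at h2
    apply not_ae_false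
    filter_upwards [h2, hce] with n h3 h4
    apply h4.2
    rw [ev_tpr, ev_tpr, ev_tfact, ev_tcn] at h3
    exact h3
  have h2 : ∀ κ : Term, InM κ → ∀ᶠ n in hyp, codeF (κ.ev n) (S.ev n) ∈ dec (t.ev n) := by
    intro κ hκ
    filter_upwards [h1 κ hκ, hκ.lt_top] with n h3 h4
    have h5 : κ.ev n ≤ Nat.findGreatest
        (fun l => ∃ S, ∀ k, k ≤ l → codeF k S ∈ dec (t.ev n)) (bN n) :=
      Nat.le_findGreatest h4.le h3
    have h6 : ∃ S, ∀ k, k ≤ Nat.findGreatest
        (fun l => ∃ S, ∀ k, k ≤ l → codeF k S ∈ dec (t.ev n)) (bN n) →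
        codeF k S ∈ dec (t.ev n) :=
      Nat.findGreatest_spec (P := fun l => ∃ S, ∀ k, k ≤ l → codeF k S ∈ dec (t.ev n)) h4.le h3
    rw [hS, pathF, dif_pos h6]
    exact h6.choose_spec _ h5
  refine ⟨XS S, ⟨S, rfl⟩, fun k => ?_⟩
  obtain ⟨κ, hκ, rfl⟩ := exists_mk k
  refine ⟨mk (tfact κ) hκ.fact, mk (tcn κ S) (hκ.cn S), ?_, ?_⟩
  · intro i hi
    obtain ⟨ι, hι, rfl⟩ := exists_mk i
    rw [mk_lt] at hi
    rw [bit_mk, mem_XS]
    apply eventually_congr
    filter_upwards [hi] with n h3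
    rw [ev_tfact, ev_tcn, dvd_cnF h3]
  · rw [mk_pr, mk_pr, mem_XS]
    filter_upwards [h2 κ hκ] with n h3
    rw [ev_tpr, ev_tpr, ev_tfact, ev_tcn]
    exact h3

end BRT
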