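import Mathlib
import Pool.Agent.Lib.MP_14f891_lc.Wkl

/-! The bounded version of Ramsey's theorem for pairs fails in the model (MP_14f891_lc). -/

namespace BRT

open Filter Term

lemma mem_ecode {n x y : ℕ} : pr x y ∈ dec (ecodeF n) ↔ EN n x y := by
  classical
  unfold ecodeF
  rw [dec_enc, Finset.mem_image]
  constructor
  · rintro ⟨⟨x', y'⟩, h1, h2⟩
    rw [Finset.mem_filter] at h1
    obtain ⟨rfl, rfl⟩ := pr_inj h2
    exact h1.2
  · intro h
    refine ⟨(x, y), ?_, rfl⟩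
    have h1 := EN_range h
    rw [Finset.mem_filter, Finset.mem_product, Finset.mem_range, Finset.mem_range]
    exact ⟨⟨by omega, h1.2.2⟩, h⟩

/-- the set coding the colouring -/
noncomputable def tC : Term := app .ecode Term.id

/-- the number -/
noncomputable def tL : Term := app .ell Term.id

lemma ev_tC (n : ℕ) : tC.ev n = ecodeF n := rfl

lemma ev_tL (n : ℕ) : tL.ev n = 2 ^ n + 1 := rfl

lemma inM_tL : InM tL := inM_small (Eventually.of_forall fun n => by rw [ev_tL]; omega)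

theorem no_clique : ¬ HasHomog XX (XS tC) (mk tL inM_tL) := by
  classical
  rintro ⟨G, ⟨g, rfl⟩, hG1, hG2⟩
  let hm : Term → Term := fun i => app .hmin (pair g i)
  have hhm : ∀ i n, (hm i).ev n = hminF (g.ev n) (i.ev n) := by
    intro i n; simp [hm, Term.ev, Op.fun]
  -- values
  have hval : ∀ i : Term, InM i → (∀ᶠ n in hyp, i.ev n < tL.ev n) →
      ∃ _ : InM (hm i), ∀ᶠ n in hyp, pr (i.ev n) ((hm i).ev n) ∈ dec (g.ev n) := by
    intro i hi hil
    obtain ⟨y, hy, -⟩ := hG1 (mk i hi) (mk_lt.2 hil)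
    obtain ⟨ρ, hρ, rfl⟩ := exists_mk y
    rw [mk_pr, mem_XS] at hy
    simp only [ev_tpr] at hy
    have h1 : ∀ᶠ n in hyp, (hm i).ev n ≤ ρ.ev n ∧
        pr (i.ev n) ((hm i).ev n) ∈ dec (g.ev n) := by
      filter_upwards [hy] with n hn
      have h2 : ∃ y, pr (i.ev n) y ∈ dec (g.ev n) := ⟨_, hn⟩
      rw [hhm, hminF, dif_pos h2]
      exact ⟨Nat.find_min' h2 hn, Nat.find_spec h2⟩
    exact ⟨hρ.of_le (h1.mono fun n hn => hn.1), h1.mono fun n hn => hn.2⟩
  have c1 : ∀ᶠ n in hyp, ∀ i, i < 2 ^ n + 1 → ∃ y, pr i y ∈ dec (g.ev n) := by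
    by_contra hcon
    rw [ae_not] at hcon
    let i : Term := app .ce1 (pair g tL)
    have hi : ∀ n, i.ev n = ce1F (g.ev n) (2 ^ n + 1) := by
      intro n; simp [i, Term.ev, Op.fun, tL]
    have h1 : ∀ᶠ n in hyp, i.ev n < tL.ev n ∧ ¬ ∃ y, pr (i.ev n) y ∈ dec (g.ev n) := by
      filter_upwards [hcon] with n hn
      push Not at hn
      have h2 : ∃ i, i < 2 ^ n + 1 ∧ ¬ ∃ y, pr i y ∈ dec (g.ev n) := by
        obtain ⟨i, h3, h4⟩ := hn
        exact ⟨i, h3, fun ⟨y, hy⟩ => h4 y hy⟩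
      rw [hi, ce1F, dif_pos h2, ev_tL]
      exact Nat.find_spec h2
    have hiM : InM i := inM_tL.of_le (h1.mono fun n hn => hn.1.le)
    obtain ⟨_, h2⟩ := hval i hiM (h1.mono fun n hn => hn.1)
    apply not_ae_false
    filter_upwards [h1, h2] with n h3 h4
    exact h3.2 ⟨_, h4⟩
  have c2 : ∀ᶠ n in hyp, ∀ i j, i < j → j < 2 ^ n + 1 →
      hminF (g.ev n) i < hminF (g.ev n) j ∧
      pr (hminF (g.ev n) i) (hminF (g.ev n) j) ∈ dec (tC.ev n) := by
    by_contra hcon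
    rw [ae_not] at hcon
    let q : Term := app .ce2 (pair tC (pair g tL))
    have hq : ∀ n, q.ev n = ce2F (tC.ev n) (g.ev n) (2 ^ n + 1) := by
      intro n; simp [q, Term.ev, Op.fun, tL]
    let i : Term := app .unp1 q
    let j : Term := app .unp2 q
    have hi : ∀ n, i.ev n = p1 (q.ev n) := fun n => rfl
    have hj : ∀ n, j.ev n = p2 (q.ev n) := fun n => rfl
    have h1 : ∀ᶠ n in hyp, i.ev n < j.ev n ∧ j.ev n < tL.ev n ∧
        ¬ (hminF (g.ev n) (i.ev n) < hminF (g.ev n) (j.ev n) ∧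
        pr (hminF (g.ev n) (i.ev n)) (hminF (g.ev n) (j.ev n)) ∈ dec (tC.ev n)) := by
      filter_upwards [hcon] with n hn
      have h2 : ∃ q : ℕ × ℕ, q.1 < q.2 ∧ q.2 < 2 ^ n + 1 ∧
          ¬ (hminF (g.ev n) q.1 < hminF (g.ev n) q.2 ∧
          pr (hminF (g.ev n) q.1) (hminF (g.ev n) q.2) ∈ dec (tC.ev n)) := by
        by_contra h3
        apply hn
        intro i j hij hj
        by_contra h4
        exact h3 ⟨(i, j), hij, hj, h4⟩
      obtain ⟨r, hr, h3⟩ : ∃ r : ℕ × ℕ, q.ev n = Nat.pair r.1 r.2 ∧ r.1 < r.2 ∧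
          r.2 < 2 ^ n + 1 ∧
          ¬ (hminF (g.ev n) r.1 < hminF (g.ev n) r.2 ∧
          pr (hminF (g.ev n) r.1) (hminF (g.ev n) r.2) ∈ dec (tC.ev n)) :=
        ⟨h2.choose, by rw [hq, ce2F, dif_pos h2], h2.choose_spec⟩
      rw [hi, hj, hr, p1_pair, p2_pair, ev_tL]
      exact h3
    have hjM : InM j := inM_tL.of_le (h1.mono fun n hn => hn.2.1.le)
    have hiM : InM i := hjM.of_le (h1.mono fun n hn => hn.1.le)
    obtain ⟨hmi, h2⟩ := hval i hiM (h1.mono fun n hn => lt_trans hn.1 hn.2.1)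
    obtain ⟨hmj, h3⟩ := hval j hjM (h1.mono fun n hn => hn.2.1)
    have h4 := hG2 (mk i hiM) (mk j hjM) (mk (hm i) hmi) (mk (hm j) hmj)
      (mk_lt.2 (h1.mono fun n hn => hn.1)) (mk_lt.2 (h1.mono fun n hn => hn.2.1))
      (by
        rw [mk_pr, mem_XS]
        filter_upwards [h2] with n hn
        rwa [ev_tpr])
      (by
        rw [mk_pr, mem_XS]
        filter_upwards [h3] with n hn
        rwa [ev_tpr])
    rw [mk_lt, mk_pr, mem_XS] at h4
    apply not_ae_false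
    filter_upwards [h1, h4.1, h4.2] with n h5 h6 h7
    apply h5.2.2
    rw [hhm, hhm] at h6
    rw [ev_tpr, hhm, hhm] at h7
    exact ⟨h6, h7⟩
  apply not_ae_false
  filter_upwards [c2] with n h1
  let S : Finset ℕ := (Finset.range (2 ^ n + 1)).image (hminF (g.ev n))
  have hinj : Set.InjOn (hminF (g.ev n)) (Finset.range (2 ^ n + 1) : Set ℕ) := by
    intro i hi j hj hij
    rw [Finset.mem_coe, Finset.mem_range] at hi hj
    rcases lt_trichotomy i j with h | h | h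
    · have := (h1 i j h hj).1; omega
    · exact h
    · have := (h1 j i h hi).1; omega
  have hcard : S.card = 2 ^ n + 1 := by
    rw [Finset.card_image_of_injOn hinj, Finset.card_range]
  have hcl : Clique (EN n) S := by
    intro x hx y hy hxy
    simp only [S, Finset.mem_image, Finset.mem_range] at hx hy
    obtain ⟨i, hi, rfl⟩ := hx
    obtain ⟨j, hj, rfl⟩ := hy
    rcases lt_trichotomy i j with h | h | h
    · have := (h1 i j h hj).2
      rw [ev_tC, mem_ecode] at this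
      exact this
    · subst h; omega
    · have := (h1 j i h hi).1; omega
  have := EN_clique n S hcl
  omega

theorem no_indep (H : Set MM) (hH : H ∈ XX) (hinf : ∀ x, ∃ y ∈ H, x < y) :
    ∃ x ∈ H, ∃ y ∈ H, x < y ∧ pr x y ∈ XS tC := by
  classical
  obtain ⟨η, rfl⟩ := hH
  obtain ⟨i, -, -, -, hi⟩ := exists_req Term.id Term.id η 0
  have hst := step_ae i
  rw [hi] at hst
  have h1 := hst.mono fun n hn => hn.2.2.2.1
  rw [ae_or] at h1
  rcases h1 with h1 | h1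
  · exfalso
    obtain ⟨x, hx, hxm⟩ := hinf (mk (mm (i + 1)) (inM_mm _))
    obtain ⟨σ, hσ, rfl⟩ := exists_mk x
    rw [mem_XS] at hx
    rw [mk_lt] at hxm
    obtain ⟨j, hj⟩ := hσ.ge
    apply not_ae_false
    filter_upwards [h1, hx, hxm, hj (max j (i + 1)) (le_max_left _ _),
      mm_mem (le_refl (i + 1)), mm_mem (le_max_right j (i + 1))] with n h2 h3 h4 h5 h6 h7
    exact h2 _ h3 _ h6 _ h7 ⟨h4.le, h5.le⟩
  · let q : Term := app .edge (pair Term.id (pair η (Ds (i + 1))))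
    have hq : ∀ n, q.ev n = edgeF n (η.ev n) ((Ds (i + 1)).ev n) := by
      intro n; simp [q, Term.ev, Op.fun]
    let x : Term := app .unp1 q
    let y : Term := app .unp2 q
    have hx : ∀ n, x.ev n = p1 (q.ev n) := fun n => rfl
    have hy : ∀ n, y.ev n = p2 (q.ev n) := fun n => rfl
    have h2 : ∀ᶠ n in hyp, x.ev n ∈ dec (η.ev n) ∧ y.ev n ∈ dec (η.ev n) ∧ x.ev n < y.ev n ∧
        EN n (x.ev n) (y.ev n) ∧ ∀ u ∈ dec ((Ds (i + 1)).ev n), y.ev n ≤ u := by
      filter_upwards [h1] with n hn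
      have h3 : ∃ q : ℕ × ℕ, q.1 ∈ dec (η.ev n) ∧ q.2 ∈ dec (η.ev n) ∧ q.1 < q.2 ∧
          EN n q.1 q.2 ∧ ∀ u ∈ dec ((Ds (i + 1)).ev n), q.2 ≤ u := by
        obtain ⟨x, hx, y, hy, h4, h5, h6⟩ := hn
        exact ⟨(x, y), hx, hy, h4, h5, h6⟩
      obtain ⟨r, hr, h4⟩ : ∃ r : ℕ × ℕ, q.ev n = Nat.pair r.1 r.2 ∧ r.1 ∈ dec (η.ev n) ∧
          r.2 ∈ dec (η.ev n) ∧ r.1 < r.2 ∧
          EN n r.1 r.2 ∧ ∀ u ∈ dec ((Ds (i + 1)).ev n), r.2 ≤ u :=
        ⟨h3.choose, by rw [hq, edgeF, dif_pos h3], h3.choose_spec⟩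
      rw [hx, hy, hr, p1_pair, p2_pair]
      exact h4
    have hyM : InM y := ⟨i + 1, by
      filter_upwards [h2, mm_mem (le_refl (i + 1))] with n h3 h4
      exact h3.2.2.2.2 _ h4⟩
    have hxM : InM x := hyM.of_le (h2.mono fun n hn => hn.2.2.1.le)
    refine ⟨mk x hxM, ?_, mk y hyM, ?_, ?_, ?_⟩
    · rw [mem_XS]; exact h2.mono fun n hn => hn.1
    · rw [mem_XS]; exact h2.mono fun n hn => hn.2.1
    · rw [mk_lt]; exact h2.mono fun n hn => hn.2.2.1
    · rw [mk_pr, mem_XS]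
      filter_upwards [h2] with n hn
      rw [ev_tpr, ev_tC, mem_ecode]
      exact hn.2.2.2.1

theorem mm_not_brt : ¬ BRT22 XX := by
  intro h
  obtain ⟨H, hH, h1, h2⟩ := h (XS tC) ⟨tC, rfl⟩ (mk tL inM_tL) no_clique
  obtain ⟨x, hx, y, hy, hxy, h3⟩ := no_indep H hH h1
  exact h2 x hx y hy hxy h3

end BRT
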